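import Pool.Agent.H51.K3.Spec
import Pool.Agent.H51.K2.B1
import Pool.Agent.H12.CF.Fin
import Pool.Agent.H51.HD.Gtz

/-!
# [H51 K3 CNT] the lower bound from a part `C` of the elements of least index

* `part_cls`: representatives of the classes of `C`. `lbetc`: their number is `betaC K G C`.
* `lowc_of_base1`, `lowc_of_base0`: `BASE1 C N` (`BASE0 C N`) gives `LowC G C`.
* `part_lst`: all elements of least index.
-/

set_option autoImplicit false

open scoped NumberField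
open IsDedekindDomain H38.ML
open scoped Classical

noncomputable section

namespace H51.K3

open H63.MA H38.BB H38.BG H77.PC3 H88.LH H35.SN H71.KA H77.GN H77.AB H51.K2

variable {n : ℕ}

theorem part_prime {G : Subgroup (Equiv.Perm (Fin n))} {C : Set G} (h : Part G C) : ∀ x ∈ C, (orderOf x).Prime :=
  fun x hx => H38.ML.prime_of_least G x (h.least hx).1 (h.least hx).2

theorem part_lst (hn : 2 ≤ n) (G : Subgroup (Equiv.Perm (Fin n)))
    (hG : MulAction.IsPretransitive G (Fin n)) : Part G (H88.LB.Lst G) := by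
  obtain ⟨ha, ⟨g₀, hg₀, hg₀'⟩, hmin, hcj, hJ⟩ := pidx_pos hn G hG
  refine ⟨⟨g₀, hg₀, hg₀'⟩, subset_rfl, ?_, ?_⟩
  · rintro x ⟨hx, hxi⟩ g
    refine ⟨fun h => hx ?_, hcj x g hx hxi⟩
    have h1 : x = g⁻¹ * (g * x * g⁻¹) * g := by group
    rw [h1, h]
    group
  · intro x hx j hj
    have hpx := H38.ML.prime_of_least G x hx.1 hx.2
    have hxp : (x : Equiv.Perm (Fin n)) ^ orderOf x = 1 := congrArg Subtype.val (pow_orderOf_eq_one x)
    obtain ⟨h1, h2⟩ := H88.LB.ind_pow hpx hxp (j := j)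
      ((Nat.Prime.coprime_iff_not_dvd hpx).1 (Nat.coprime_comm.1 hj))
    refine ⟨fun h => ?_, h1.trans hx.2⟩
    exact h2 (fun h3 => hx.1 (Subtype.ext h3)) (congrArg Subtype.val h)

theorem lbetc (G : Subgroup (Equiv.Perm (Fin n))) (K : IntermediateField ℚ QBar) (z : K)
    (hz : IsPrimitiveRoot z (Nat.card G)) (C : Set G) {N : ℕ} (g : Fin N → G)
    (uni : ∀ i j, IsConj (g i) (g j) → i = j) (hI : ∀ h : G, h ∈ C ↔ ∃ i, IsConj h (g i)) :
    betaC K G C = N := by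
  have hk : ∀ g h : G, Spec.KConj K QBar G g h ↔ IsConj g h := by
    intro g h
    have h1 : Spec.KConj K QBar G g h ↔ H38.ML.KConj G K g h := Iff.rfl
    rw [h1, kconj_iff G K z hz g h, isConj_iff]
    constructor
    · rintro ⟨x, hx⟩
      exact ⟨x, hx.symm⟩
    · rintro ⟨x, hx⟩
      exact ⟨x, hx.symm⟩
  have hmem : ∀ i, g i ∈ C := fun i => (hI (g i)).2 ⟨i, IsConj.refl _⟩
  unfold betaC
  have hcard : Nat.card (Fin N) = Nat.card (Quot fun g h : {g : G // g ∈ C} =>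
      Spec.KConj K QBar G g.1 h.1) := by
    refine Nat.card_eq_of_bijective (fun i => Quot.mk _ ⟨g i, hmem i⟩) ⟨?_, ?_⟩
    · intro i j hij
      let P : Quot (fun g h : {g : G // g ∈ C} => Spec.KConj K QBar G g.1 h.1) → Prop :=
        Quot.lift (fun x => IsConj (g i) x.1) (by
          intro x y hxy
          have hxy' : IsConj x.1 y.1 := (hk _ _).1 hxy
          exact propext ⟨fun h => h.trans hxy', fun h => h.trans hxy'.symm⟩)
      have h1 : P (Quot.mk _ ⟨g i, hmem i⟩) := IsConj.refl _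
      have h2 : P (Quot.mk _ ⟨g j, hmem j⟩) := by
        have h3 : P (Quot.mk _ ⟨g i, hmem i⟩) = P (Quot.mk _ ⟨g j, hmem j⟩) :=
          congrArg P hij
        exact h3.mp h1
      exact uni i j h2
    · intro q
      induction q using Quot.ind with
      | mk x =>
        obtain ⟨i, hi⟩ := (hI x.1).1 x.2
        exact ⟨i, Quot.sound ((hk _ _).2 hi.symm)⟩
  rw [← hcard, Nat.card_eq_fintype_card, Fintype.card_fin]

theorem betac_le (G : Subgroup (Equiv.Perm (Fin n))) (K : IntermediateField ℚ QBar) (z : K)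
    (hz : IsPrimitiveRoot z (Nat.card G)) (C : Set G) (T N : Subgroup G)
    (h : ∀ x ∈ C, x ∈ T ∧ x ≠ 1 ∧ ind (x : Equiv.Perm (Fin n)) = indG G ∧
      Nat.Coprime (orderOf x) (Nat.card N)) : betaC K G C ≤ Spec.beta K QBar G T N := by
  have hk : ∀ g h : G, Spec.KConj K QBar G g h ↔ IsConj g h := by
    intro g h
    have h1 : Spec.KConj K QBar G g h ↔ H38.ML.KConj G K g h := Iff.rfl
    rw [h1, kconj_iff G K z hz g h, isConj_iff]
    constructor
    · rintro ⟨x, hx⟩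
      exact ⟨x, hx.symm⟩
    · rintro ⟨x, hx⟩
      exact ⟨x, hx.symm⟩
  unfold betaC Spec.beta
  refine Nat.card_le_card_of_injective (Quot.map (fun x : {g : G // g ∈ C} =>
    (⟨x.1, h x.1 x.2⟩ : {g : G // g ∈ T ∧ g ≠ 1 ∧ Spec.ind (g : Equiv.Perm (Fin n)) = Spec.indG G ∧
      Nat.Coprime (orderOf g) (Nat.card N)})) (fun _ _ h => h)) ?_
  intro a b hab
  induction a using Quot.ind with
  | mk x =>
    induction b using Quot.ind with
    | mk y =>
      let P : Quot (fun g h : {g : G // g ∈ T ∧ g ≠ 1 ∧ Spec.ind (g : Equiv.Perm (Fin n)) = Spec.indG G ∧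
          Nat.Coprime (orderOf g) (Nat.card N)} => Spec.KConj K QBar G g.1 h.1) → Prop :=
        Quot.lift (fun w => IsConj x.1 w.1) (by
          intro u v huv
          have huv' : IsConj u.1 v.1 := (hk _ _).1 huv
          exact propext ⟨fun h => h.trans huv', fun h => h.trans huv'.symm⟩)
      have h1 : P (Quot.mk _ ⟨x.1, h x.1 x.2⟩) := IsConj.refl _
      have h2 : P (Quot.mk _ ⟨y.1, h y.1 y.2⟩) := by
        have h3 : P (Quot.mk _ ⟨x.1, h x.1 x.2⟩) = P (Quot.mk _ ⟨y.1, h y.1 y.2⟩) := congrArg P hab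
        exact h3.mp h1
      exact Quot.sound ((hk _ _).2 h2)

/-- representatives of the classes -/
theorem part_cls {G : Subgroup (Equiv.Perm (Fin n))} {C : Set G} (h : Part G C) :
    ∃ (r : ℕ) (g : Fin r → G), 1 ≤ r ∧ (∀ i j, IsConj (g i) (g j) → i = j) ∧
      ∀ x, x ∈ C ↔ ∃ i, IsConj x (g i) := by
  obtain ⟨r, g, hgC, uni, hI⟩ := ncl G C (fun x hx => (h.least hx).1) fun x hx k hk => by
    obtain ⟨y, rfl⟩ := isConj_iff.1 hk
    exact h.conj x hx y
  obtain ⟨x, hx⟩ := h.nonempty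
  obtain ⟨i, -⟩ := (hI x).1 hx
  refine ⟨r, g, Nat.one_le_iff_ne_zero.2 fun h => ?_, uni, hI⟩
  subst h
  exact i.elim0

theorem lowc_of_base0 (hn : 2 ≤ n) (G : Subgroup (Equiv.Perm (Fin n)))
    (hG : MulAction.IsPretransitive G (Fin n)) (C : Set G) (hC : Part G C)
    (hb : ∀ (r : ℕ), 1 ≤ r → ∀ g : Fin r → G, (∀ i j, IsConj (g i) (g j) → i = j) →
      (∀ x, x ∈ C ↔ ∃ i, IsConj x (g i)) → H12.CF.BASE0 C r) : LowC G C := by
  obtain ⟨ha, -, -, -, -⟩ := pidx_pos hn G hG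
  obtain ⟨r, g, hr, uni, hI⟩ := part_cls hC
  obtain ⟨K₁, hK₁, h⟩ := hb r hr g uni hI
  obtain ⟨K₂, hK₂, h2⟩ := akn G
  have hK₁' : FiniteDimensional ℚ K₁ := hK₁.to_finiteDimensional
  have hK₂' : FiniteDimensional ℚ K₂ := hK₂.to_finiteDimensional
  have hfd' : FiniteDimensional ℚ ↥(K₁ ⊔ K₂) := IntermediateField.finiteDimensional_sup K₁ K₂
  refine ⟨K₁ ⊔ K₂, NumberField.of_module_finite ℚ _, fun K hK hle => ?_⟩
  obtain ⟨-, ⟨z, hz⟩, -⟩ := h2 K (le_trans le_sup_right hle) hK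
  obtain ⟨Q, S₀, c', Y₀, hc', h3, h7⟩ := h K hK (le_trans le_sup_left hle) ∅
  unfold LowKC
  rw [lbetc G K z hz C g uni hI]
  exact cfm hn G hG ha K Q S₀ ∅ C (fun h hh => (hC.least hh).2) r c' Y₀ hc' h7

theorem lowc_of_base1 (hn : 2 ≤ n) (G : Subgroup (Equiv.Perm (Fin n)))
    (hG : MulAction.IsPretransitive G (Fin n)) (C : Set G) (hC : Part G C)
    (hb : ∀ (r : ℕ), 1 ≤ r → ∀ g : Fin r → G, (∀ i j, IsConj (g i) (g j) → i = j) →
      (∀ x, x ∈ C ↔ ∃ i, IsConj x (g i)) → BASE1 C r) : LowC G C := by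
  obtain ⟨ha, -, -, -, -⟩ := pidx_pos hn G hG
  obtain ⟨r, g, hr, uni, hI⟩ := part_cls hC
  obtain ⟨K₁, hK₁, h⟩ := hb r hr g uni hI 0
  obtain ⟨K₂, hK₂, h2⟩ := akn G
  have hK₁' : FiniteDimensional ℚ K₁ := hK₁.to_finiteDimensional
  have hK₂' : FiniteDimensional ℚ K₂ := hK₂.to_finiteDimensional
  have hfd' : FiniteDimensional ℚ ↥(K₁ ⊔ K₂) := IntermediateField.finiteDimensional_sup K₁ K₂
  refine ⟨K₁ ⊔ K₂, NumberField.of_module_finite ℚ _, fun K hK hle => ?_⟩
  obtain ⟨-, ⟨z, hz⟩, -⟩ := h2 K (le_trans le_sup_right hle) hK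
  obtain ⟨Q, S₀, S', c', Y₀, hc', h3, h4, h5, h6, h7⟩ := h K hK (le_trans le_sup_left hle) ∅
  unfold LowKC
  rw [lbetc G K z hz C g uni hI]
  exact cfm hn G hG ha K Q S₀ S' C (fun h hh => (hC.least hh).2) r c' Y₀ hc' h7

end H51.K3
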