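import Pool.Agent.H51.K3.Cnt

/-!
# [H51 K3 HYP] hypercentral `⟨C⟩`: the pair `(G, C)` is in the class `MC`

* `trgzc`: all elements of `C` have the same order. `tz_pgroupc`: `⟨C⟩` is a `p`-group. `hyp_mc`.
-/

set_option autoImplicit false

open scoped Classical

noncomputable section

namespace H51.K3

open H38.ML H77.UX H51.PF H86.HT H51.HD

variable {n : ℕ}

/-- the elements of least index have the same order -/
theorem trgzc (hn : 2 ≤ n) (G : Subgroup (Equiv.Perm (Fin n)))
    (hG : MulAction.IsPretransitive G (Fin n)) (C : Set G) (hC : Part G C) (k : ℕ)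
    (hk : Subgroup.closure C ≤ Subgroup.upperCentralSeries G k) (g g' : G) (hgL : g ∈ C)
    (hgL' : g' ∈ C) : orderOf g = orderOf g' := by
  by_contra hne
  obtain ⟨hg, h⟩ := hC.least hgL
  obtain ⟨hg', h'⟩ := hC.least hgL'
  have hcm : ∀ (q : ℕ) (_ : q.Prime) (z : G), z ∈ C → ¬ q ∣ orderOf z →
      ∀ s : G, (∃ j : ℕ, s ^ q ^ j = 1) → s * z = z * s := fun q hq z hz hqz s hs =>
    hyp_cmm (Subgroup.closure C) k hk hq s z hs (Subgroup.subset_closure hz) hqz
  have hl := prime_of_least G g hg h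
  have hl' := prime_of_least G g' hg' h'
  have ho : orderOf (g : Equiv.Perm (Fin n)) = orderOf g := Subgroup.orderOf_coe g
  have ho' : orderOf (g' : Equiv.Perm (Fin n)) = orderOf g' := Subgroup.orderOf_coe g'
  have i1 := ind_prime (g : Equiv.Perm (Fin n)) (by rw [ho]; exact hl)
  have i2 := ind_prime (g' : Equiv.Perm (Fin n)) (by rw [ho']; exact hl')
  rw [ho] at i1
  rw [ho'] at i2
  have hn0 : n ≠ 0 := by omega
  change ind (g : Equiv.Perm (Fin n)) = indG G at h
  change ind (g' : Equiv.Perm (Fin n)) = indG G at h'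
  set l := orderOf g with hldef
  set l' := orderOf g' with hldef'
  set I := indG G with hI
  rw [h] at i1
  rw [h'] at i2
  set m := n - Fx (g : Equiv.Perm (Fin n)) with hm
  set v := n.factorization l with hv
  have hnl : l ^ v ∣ n := Nat.ordProj_dvd n l
  have hI0 : 0 < I := by
    rw [← h]
    exact ind_pos _ (fun h => hg (Subtype.ext h))
  have hll' : ¬ l ∣ l' := fun hd => hne ((Nat.prime_dvd_prime_iff_eq hl hl').1 hd)
  have d1 : l ^ v ∣ Fx (g' : Equiv.Perm (Fin n)) :=
    dvd_Fy hn0 hG hl g' (hcm l hl g' hgL' hll')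
  have d2 : l ^ v ∣ l' * I := by
    rw [i2]
    exact Dvd.dvd.mul_left (Nat.dvd_sub hnl d1) _
  have d3 : l ^ v ∣ I :=
    (Nat.Coprime.pow_left v ((Nat.Prime.coprime_iff_not_dvd hl).2 hll')).dvd_of_dvd_mul_left d2
  have hl1 : 1 < l := hl.one_lt
  have d4 : l ^ (v + 1) ∣ m := by
    have h1 : l ^ (v + 1) ∣ (l - 1) * m := by
      rw [← i1, pow_succ, mul_comm]
      exact Nat.mul_dvd_mul_left l d3
    have h2 : ¬ l ∣ l - 1 := fun hd => by
      have := Nat.le_of_dvd (by omega) hd
      omega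
    exact (Nat.Coprime.pow_left (v + 1) ((Nat.Prime.coprime_iff_not_dvd hl).2 h2)).dvd_of_dvd_mul_left h1
  have hm0 : m ≠ 0 := by
    intro h0
    rw [h0, mul_zero] at i1
    rcases Nat.mul_eq_zero.1 i1 with h1 | h1
    · omega
    · omega
  have hln : l * n ∣ m := by
    rw [← Nat.factorization_le_iff_dvd (by positivity) hm0]
    intro q
    by_cases hq : q.Prime
    · rw [Nat.factorization_mul (by omega) hn0, Finsupp.add_apply]
      by_cases hql : q = l
      · rw [hql, hl.factorization_self, ← hv]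
        have := (hl.pow_dvd_iff_le_factorization hm0).1 d4
        omega
      · have h1 : l.factorization q = 0 := by
          rw [Nat.Prime.factorization hl, Finsupp.single_apply, if_neg (Ne.symm hql)]
        rw [h1, zero_add]
        have h2 : q ^ n.factorization q ∣ m := by
          rw [hm]
          refine Nat.dvd_sub (Nat.ordProj_dvd n q) (dvd_Fy hn0 hG hq g (hcm q hq g hgL ?_))
          rw [← hldef]
          exact fun hd => hql ((Nat.prime_dvd_prime_iff_eq hq hl).1 hd)
        exact (hq.pow_dvd_iff_le_factorization hm0).1 h2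
    · rw [Nat.factorization_eq_zero_of_not_prime _ hq]
      exact Nat.zero_le _
  have h1 := Nat.le_of_dvd (Nat.pos_of_ne_zero hm0) hln
  have h2 : m ≤ n := Nat.sub_le _ _
  nlinarith

/-- `T` is a `p`-group -/
theorem tz_pgroupc {G : Type} [Group G] [Finite G] (C : Set G) (k : ℕ)
    (hk : Subgroup.closure C ≤ Subgroup.upperCentralSeries G k) {p : ℕ} (hp : p.Prime)
    (hL : ∀ h ∈ C, h ^ p = 1) : IsPGroup p (Subgroup.closure C) := by
  have : Fact p.Prime := ⟨hp⟩
  have hnil := hyp_tnil (Subgroup.closure C) k hk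
  obtain ⟨S⟩ : Nonempty (Sylow p (Subgroup.closure C)) := inferInstance
  have h1 : Subgroup.closure C ≤ (S : Subgroup (Subgroup.closure C)).map (Subgroup.closure C).subtype := by
    rw [Subgroup.closure_le]
    intro h hh
    have hm : h ∈ Subgroup.closure C := Subgroup.subset_closure hh
    refine ⟨⟨h, hm⟩, nil_mem hnil hp S ⟨1, ?_⟩, rfl⟩
    rw [pow_one]
    exact Subtype.ext (hL h hh)
  intro x
  obtain ⟨y, hy, hyx⟩ := h1 x.2
  have h2 : y = x := Subtype.ext hyx
  rw [← h2]
  obtain ⟨j, hj⟩ := S.isPGroup' ⟨y, hy⟩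
  exact ⟨j, congrArg Subtype.val hj⟩


/-- hypercentral `⟨C⟩` -/
theorem hyp_mc (hn : 2 ≤ n) (G : Subgroup (Equiv.Perm (Fin n)))
    (hG : MulAction.IsPretransitive G (Fin n)) (C : Set G) (hC : Part G C) (k : ℕ)
    (hk : Subgroup.closure C ≤ Subgroup.upperCentralSeries G k) : MC C := by
  obtain ⟨x, hx⟩ := hC.nonempty
  have hp := part_prime hC x hx
  have hL : ∀ y ∈ C, y ^ orderOf x = 1 := by
    intro y hy
    rw [trgzc hn G hG C hC k hk x y hx hy]
    exact pow_orderOf_eq_one y
  have hP := tz_pgroupc C k hk hp hL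
  obtain ⟨D, hD⟩ : ∃ D : Subgroup G, D = Subgroup.closure C := ⟨_, rfl⟩
  rw [← hD] at hP hk
  have hDn : D.Normal := by
    refine ⟨fun y hy g => ?_⟩
    rw [hD] at hy ⊢
    induction hy using Subgroup.closure_induction with
    | mem z hz => exact Subgroup.subset_closure (hC.conj z hz g)
    | one => rw [mul_one, mul_inv_cancel]; exact one_mem _
    | mul a b _ _ ha hb =>
      have h1 : g * (a * b) * g⁻¹ = (g * a * g⁻¹) * (g * b * g⁻¹) := by group
      rw [h1]
      exact mul_mem ha hb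
    | inv a _ ha =>
      have h1 : g * a⁻¹ * g⁻¹ = (g * a * g⁻¹)⁻¹ := by group
      rw [h1]
      exact inv_mem ha
  have hCD : ∀ y ∈ C, y ∈ D := fun y hy => by
    rw [hD]
    exact Subgroup.subset_closure hy
  have hnor : (Subgroup.normalizer (D : Set G) : Subgroup G) = ⊤ := Subgroup.normalizer_eq_top D
  refine MC.loc C (orderOf x) hp hL (H88.LB.LC.loc C D ?_ (fun y hy => ⟨1, ?_⟩) ?_ ?_ ?_)
  · rw [hD]
    congr 1
    ext y
    exact ⟨fun hy => ⟨hy, Subgroup.subset_closure hy⟩, fun hy => hy.1⟩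
  · rw [one_mul, inv_one, mul_one]
    exact hCD y hy
  · intro g hg
    rw [hnor] at hg
    exact absurd (Subgroup.mem_top g) hg
  · intro y _ hy
    have h1 : {z : G | ∃ g : G, g ∉ (Subgroup.normalizer (D : Set G) : Subgroup G) ∧
        ∃ y ∈ D, z = g * y * g⁻¹} = ∅ := by
      ext z
      constructor
      · rintro ⟨g, hg, -⟩
        rw [hnor] at hg
        exact absurd (Subgroup.mem_top g) hg
      · exact fun h => absurd h (Set.notMem_empty z)
    rw [h1, Subgroup.closure_empty] at hy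
    exact Subgroup.mem_bot.1 hy
  · refine H88.LB.SC.base _ _ k (fun y hy => ?_) ?_
    · exact ucs_sub _ k y (hk (Subgroup.mem_subgroupOf.1 hy))
    · rintro ⟨⟨y, hy1⟩, hy2⟩
      obtain ⟨j, hj⟩ := hP ⟨y, Subgroup.mem_subgroupOf.1 hy2⟩
      have hj' : y ^ orderOf x ^ j = 1 := congrArg Subtype.val hj
      refine ⟨j, Subtype.ext (Subtype.ext ?_)⟩
      rw [Subgroup.coe_pow, Subgroup.coe_pow]
      exact hj'

end H51.K3
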