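import Pool.Agent.H51.K3.Mc
import Pool.Agent.H51.K3.Hyp
import Pool.Agent.H51.AG.Fin
import Pool.Agent.H12.CF.Fin
import Pool.Agent.H71.KA.Sp2
import Pool.Agent.H51.K1.Fib

/-!
# [H51 K3 LOW] the lower bound from a part `C` of the elements of least index: the other cases

* `low_cfc`: `⟨C⟩` solvable, no `q ^ 3 ∣ #G`. `low_hyc`: `⟨C⟩` hypercentral. `low_agc`: `⟨C⟩` solvable, `C` of exponent `p`, abelian Sylow
  subgroups. `lowc_lst`: `C` the set of all elements of least index.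
-/

set_option autoImplicit false

open scoped NumberField
open scoped Classical

noncomputable section

namespace H51.K3

open H38.ML.Spec H88.LB

variable {n : ℕ}

/-- all elements of least index -/
theorem lowc_lst {G : Subgroup (Equiv.Perm (Fin n))} (h : LowC G (Lst G)) : Low G := h

theorem low_hyc (hn : 2 ≤ n) (G : Subgroup (Equiv.Perm (Fin n)))
    (hG : MulAction.IsPretransitive G (Fin n)) (C : Set G) (hC : Part G C)
    (h : ∃ j : ℕ, Subgroup.closure C ≤ Subgroup.upperCentralSeries G j) : LowC G C := by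
  obtain ⟨j, hj⟩ := h
  exact low_mcc hn G hG C hC (hyp_mc hn G hG C hC j hj)

theorem st_part (G : Subgroup (Equiv.Perm (Fin n))) (hn : 2 ≤ n)
    (hG : MulAction.IsPretransitive G (Fin n)) (C : Set G) (hC : Part G C)
    (hs : Group.IsSolvable (Subgroup.closure C))
    (hc : ∀ q : ℕ, q.Prime → q ∣ Nat.card (Subgroup.closure C) → ¬ q ^ 3 ∣ Nat.card G) :
    H12.CF.St (Fin n) C (Subgroup.closure C) := by
  obtain ⟨-, -, hle, hcj, -⟩ := H38.BG.pidx_pos hn G hG
  refine ⟨part_prime hC, hC.conj, ?_, rfl, hs, hc⟩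
  rintro x hx y hy
  rw [H12.CF.ix_ind G x (part_prime hC x hx), H12.CF.ix_ind G y hy]
  have hy1 : y ≠ 1 := by
    rintro rfl
    rw [orderOf_one] at hy
    exact Nat.not_prime_one hy
  have h1 := hle y hy1
  have h2 : ind (x : Equiv.Perm (Fin n)) = indG G := (hC.least hx).2
  rw [h2]
  exact_mod_cast h1

theorem low_cfc (hn : 2 ≤ n) (G : Subgroup (Equiv.Perm (Fin n)))
    (hG : MulAction.IsPretransitive G (Fin n)) (C : Set G) (hC : Part G C)
    (hs : Group.IsSolvable (Subgroup.closure C))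
    (hc : ∀ q : ℕ, q.Prime → q ∣ Nat.card (Subgroup.closure C) → ¬ q ^ 3 ∣ Nat.card G) : LowC G C := by
  have S := st_part G hn hG C hC hs hc
  have : Nonempty (Fin n) := ⟨⟨0, by omega⟩⟩
  have hf : FaithfulSMul G (Fin n) := inferInstance
  obtain ⟨N, U, H⟩ := H12.CF.exists_nu S
  have hU : U.Normal := H.nU
  refine lowc_of_base0 hn G hG C hC fun r hr g uni hI => ?_
  exact H12.CF.chain0 S.cj U (H12.CF.tow S H) (H12.CF.base_base0
    (H12.CF.bar H51.SN.stpf (H71.KA.k2c Pool.Agent.H36.FR.fam2 H51.K1.fib) S H r hr g uni hI))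

theorem clo_normal {G : Type} [Group G] (C : Set G) (hcc : ∀ x ∈ C, ∀ g : G, g * x * g⁻¹ ∈ C) :
    (Subgroup.closure C).Normal := by
  refine ⟨fun y hy g => ?_⟩
  induction hy using Subgroup.closure_induction with
  | mem z hz => exact Subgroup.subset_closure (hcc z hz g)
  | one => rw [mul_one, mul_inv_cancel]; exact one_mem _
  | mul a b _ _ ha hb =>
    have h1 : g * (a * b) * g⁻¹ = (g * a * g⁻¹) * (g * b * g⁻¹) := by group
    rw [h1]
    exact mul_mem ha hb
  | inv a _ ha =>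
    have h1 : g * a⁻¹ * g⁻¹ = (g * a * g⁻¹)⁻¹ := by group
    rw [h1]
    exact inv_mem ha

/-- the lower bound if `T` is normal, `T / N` abelian and `N` has a good tower -/
theorem low_abc (hn : 2 ≤ n) (G : Subgroup (Equiv.Perm (Fin n)))
    (hG : MulAction.IsPretransitive G (Fin n)) (C : Set G) (hC : Part G C) (T N : Subgroup G) (hT : T.Normal)
    (hN : N.Normal) (hTN : ⁅T, T⁆ ≤ N) (htower : GoodTower N)
    (hL : ∀ h ∈ C, h ∈ T ∧ Nat.Coprime (orderOf h) (Nat.card N)) : LowC G C := by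
  obtain ⟨g₀, hg₀⟩ := hC.nonempty
  have hl := fun x hx => hC.least (a := x) hx
  obtain ⟨K₀, hK₀, h⟩ := H38.ML.lower_bound hn G hG T N hT hN hTN
    (H38.ML.goodTower_of_spec htower)
    (H38.ML.realizable_of_spec (H36.RT.realizable_all (G ⧸ N)))
    ⟨⟨g₀, (hL g₀ hg₀).1, (hl g₀ hg₀).1, (hl g₀ hg₀).2, (hL g₀ hg₀).2⟩⟩
  obtain ⟨K₂, hK₂, h2⟩ := H38.BG.akn G
  have hK₂' : FiniteDimensional ℚ K₂ := hK₂.to_finiteDimensional
  have hfd' : FiniteDimensional ℚ ↥(K₀ ⊔ K₂) := IntermediateField.finiteDimensional_sup K₀ K₂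
  refine ⟨K₀ ⊔ K₂, NumberField.of_module_finite ℚ _, fun K hK hle => ?_⟩
  obtain ⟨-, ⟨z, hz⟩, -⟩ := h2 K (le_trans le_sup_right hle) hK
  obtain ⟨c, hc, B₀, hB⟩ := h K (le_trans le_sup_left hle) hK.to_finiteDimensional
  have hle' : betaC K G C ≤ beta K (AlgebraicClosure ℚ) G T N := betac_le G K z hz C T N fun x hx =>
    ⟨(hL x hx).1, (hl x hx).1, (hl x hx).2, (hL x hx).2⟩
  refine ⟨c, max B₀ 3, hc, fun B hBB => ?_⟩
  refine le_trans ?_ ((hB B (le_trans (le_max_left _ _) hBB)).trans (H38.ML.nK_le_spec hn G K B))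
  have hB3 : (3 : ℝ) ≤ B := le_trans (le_max_right _ _) hBB
  have hlog : (1 : ℝ) ≤ Real.log B := by
    rw [Real.le_log_iff_exp_le (by linarith)]
    exact le_trans (le_of_lt Real.exp_one_lt_three) hB3
  have h3 : c * B ^ (1 / (indG G : ℝ)) * Real.log B ^ (betaC K G C - 1) ≤
      c * B ^ (1 / (indG G : ℝ)) * Real.log B ^ (beta K (AlgebraicClosure ℚ) G T N - 1) := by
    refine mul_le_mul_of_nonneg_left (pow_le_pow_right₀ hlog (Nat.sub_le_sub_right hle' 1)) ?_
    exact mul_nonneg hc.le (Real.rpow_nonneg (by linarith) _)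
  exact_mod_cast Nat.ceil_mono h3

theorem low_agc (hn : 2 ≤ n) (G : Subgroup (Equiv.Perm (Fin n)))
    (hG : MulAction.IsPretransitive G (Fin n)) (C : Set G) (hC : Part G C) (p : ℕ) (hp : p.Prime)
    (hL : ∀ h ∈ C, h ^ p = 1)
    (hsol : Group.IsSolvable (Subgroup.closure C))
    (hP : ∀ Q : Subgroup G, Q ≤ Subgroup.closure C → IsPGroup p Q → IsMulCommutative Q)
    (hQ : ∀ q : ℕ, q.Prime →
      q ∣ Nat.card (⁅Subgroup.closure C, Subgroup.closure C⁆ : Subgroup G) →
      ∀ Q : Subgroup G, IsPGroup q Q → IsMulCommutative Q) : LowC G C := by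
  obtain ⟨T, hTd⟩ : ∃ T : Subgroup G, T = Subgroup.closure C := ⟨_, rfl⟩
  have hTn : T.Normal := hTd ▸ clo_normal C hC.conj
  rw [← hTd] at hsol hP hQ
  have hcard : Nat.card (⁅T, T⁆ : Subgroup G) = Nat.card (commutator T) := by
    rw [← Subgroup.map_subtype_commutator T]
    exact Subgroup.card_map_of_injective T.subtype_injective
  have hpn : ¬ p ∣ Nat.card (⁅T, T⁆ : Subgroup G) := by
    rw [hcard]
    refine H51.AG.not_dvd_derived p hp hsol {x : T | (x : G) ∈ C} ?_ ?_ ?_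
    · refine Subgroup.map_injective T.subtype_injective ?_
      rw [← MonoidHom.range_eq_map, Subgroup.range_subtype, MonoidHom.map_closure]
      rw [hTd]
      refine congrArg Subgroup.closure ?_
      ext x
      constructor
      · rintro ⟨y, hy, rfl⟩
        exact hy
      · intro hx
        exact ⟨⟨x, Subgroup.subset_closure hx⟩, hx, rfl⟩
    · intro x hx
      exact Subtype.ext (hL x hx)
    · intro Q hQp x hx y hy
      have h1 : IsPGroup p (Q.map T.subtype) := hQp.map T.subtype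
      have h2 := hP (Q.map T.subtype) (by
        rintro _ ⟨z, -, rfl⟩
        exact z.2) h1
      have h3 := h2.is_comm.comm (⟨x, x, hx, rfl⟩ : Q.map T.subtype) ⟨y, y, hy, rfl⟩
      have h4 := congrArg Subtype.val h3
      exact Subtype.ext h4
  refine low_abc hn G hG C hC T ⁅T, T⁆ hTn inferInstance le_rfl ?_ ?_
  · refine H71.GT.goodTower_comm T hsol fun q hq hqd Q hQp x hx y hy => ?_
    have h3 := (hQ q hq hqd Q hQp).is_comm.comm (⟨x, hx⟩ : Q) ⟨y, hy⟩
    exact congrArg Subtype.val h3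
  · intro h hh
    refine ⟨hTd ▸ Subgroup.subset_closure hh, ?_⟩
    have h1 : orderOf h ∣ p := orderOf_dvd_of_pow_eq_one (hL h hh)
    exact Nat.Coprime.coprime_dvd_left h1 ((Nat.Prime.coprime_iff_not_dvd hp).2 hpn)

end H51.K3
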