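import Pool.Agent.H51.K3.Two
import Pool.Agent.H51.K3.Cnt
import Pool.Agent.H88.LB.Cls
import Pool.Agent.H35.SN.Ty

/-!
# [H51 K3 MC] `BASE1` for the class `MC`

`mcc_base`: `BASE1` for `MC`. `low_mcc`: the lower bound from a part `C` of the elements of least index.
-/

set_option autoImplicit false

open scoped NumberField
open IsDedekindDomain H38.ML
open scoped Classical

noncomputable section

namespace H51.K3

open H63.MA H38.BB H38.BG H77.PC3 H77.PLF H51.HD H51.HC H51.F3 H51.F4 H88.LH H35.SN H88.LB H51.K2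

private theorem ord_eq {G : Type} [Group G] {x y : G} (h : IsConj x y) : orderOf x = orderOf y := by
  obtain ⟨c, rfl⟩ := isConj_iff.1 h
  have h1 : c * x * c⁻¹ = MulAut.conj c x := rfl
  rw [h1, MulEquiv.orderOf_eq]

theorem mcc_base (hA : ∀ p : ℕ, p.Prime → APm4 p) (hU : ∀ p : ℕ, p.Prime → APu3 p) (hst : STP)
    {G : Type} [Group G] {L : Set G} (h : H51.K3.MC L) :
    ∀ [Finite G] (N : ℕ) (_ : 1 ≤ N) (g : Fin N → G) (_ : ∀ i j, IsConj (g i) (g j) → i = j)
      (_ : ∀ x, x ∈ L ↔ ∃ i, IsConj x (g i)) (_ : ∀ x ∈ L, (orderOf x).Prime)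
      (_ : ∀ x ∈ L, ∀ j : ℕ, Nat.Coprime j (orderOf x) → x ^ j ∈ L), BASE1 L N := by
  induction h with
  | @two G _ L N A _ h =>
    intro _ r hr g uni hI hp _
    refine two_base L hp (fun x hx y => ?_) N A h hr g uni hI
    obtain ⟨i, hi⟩ := (hI x).1 hx
    exact (hI _).2 ⟨i, (isConj_iff.2 ⟨y, rfl⟩ : IsConj x _).symm.trans hi⟩
  | loc L p hp hL h =>
    intro _ r hr g uni hI hpr hpw
    have hgL : ∀ i, g i ∈ L := fun i => (hI _).2 ⟨i, IsConj.refl _⟩
    refine base_base1 (lc_base hA hU hst hp h r hr ⟨g, fun i => hL _ (hgL i), fun i hi => ?_, uni⟩ ?_ ?_)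
    · have h3 := hpr _ (hgL i)
      rw [hi, orderOf_one] at h3
      exact Nat.not_prime_one h3
    · ext x
      exact hI x
    · intro x hx j hj
      refine hpw x hx j ?_
      have h3 : orderOf x = p :=
        (Nat.prime_dvd_prime_iff_eq (hpr x hx) hp).1 (orderOf_dvd_of_pow_eq_one (hL x hx))
      rw [h3, Nat.coprime_comm]
      exact (Nat.Prime.coprime_iff_not_dvd hp).2 hj
  | @sup G _ L V M _ hV h ih =>
    intro _ r hr g uni hI hpr hpw
    obtain ⟨g', uni', hI'⟩ := sup_cls L V M hV hpr g uni hI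
    refine sup_base L (fun x hx y => ?_) V M hV (ih r hr g' uni' hI' (fun x hx => ?_) fun x hx j hj => ?_)
    · obtain ⟨i, hi⟩ := (hI x).1 hx
      exact (hI _).2 ⟨i, (isConj_iff.2 ⟨y, rfl⟩ : IsConj x _).symm.trans hi⟩
    · rw [← Subgroup.orderOf_coe]
      exact hpr _ hx
    · rw [← Subgroup.orderOf_coe] at hj
      exact hpw _ hx j hj
  | @step G Gb _ _ L π hπ h ih =>
    intro _ r hr g uni hI hpr hpw
    have hsur := hπ.surjective
    have hcom := hπ.comm
    have : Finite Gb := Finite.of_surjective π hsur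
    obtain ⟨s, hsec, hsL⟩ := hπ.split
    have hsi : Function.Injective s := Function.LeftInverse.injective hsec
    -- every element of `L` is conjugate to its image in the complement
    have hLs : ∀ x ∈ L, IsConj (s (π x)) x := by
      intro x hx
      obtain ⟨c, y, hy⟩ := hsL x hx
      have h3 : y = π c * π x * (π c)⁻¹ := by
        rw [← hsec y, hy, map_mul, map_mul, map_inv]
      have h4 : IsConj (s (π x)) (s y) := by
        rw [h3, map_mul, map_mul, map_inv]
        exact isConj_iff.2 ⟨s (π c), rfl⟩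
      rw [hy] at h4
      exact h4.trans (isConj_iff.2 ⟨c, rfl⟩ : IsConj x _).symm
    have hord : ∀ x ∈ L, orderOf (π x) = orderOf x := by
      intro x hx
      rw [← ord_eq (hLs x hx)]
      exact (orderOf_injective s hsi _).symm
    -- classes
    have key : ∀ x ∈ L, ∀ y ∈ L, IsConj (π y) (π x) → IsConj y x := by
      intro x hx y hy hxy
      exact (hLs y hy).symm.trans ((MonoidHom.map_isConj s hxy).trans (hLs x hx))
    have hcc : ∀ x ∈ L, ∀ y : G, y * x * y⁻¹ ∈ L := by
      intro x hx y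
      obtain ⟨i, hi⟩ := (hI x).1 hx
      exact (hI _).2 ⟨i, (isConj_iff.2 ⟨y, rfl⟩ : IsConj x _).symm.trans hi⟩
    have hgL : ∀ i, g i ∈ L := fun i => (hI _).2 ⟨i, IsConj.refl _⟩
    have hsL' : ∀ y ∈ π '' L, s y ∈ L := by
      rintro _ ⟨x, hx, rfl⟩
      obtain ⟨c, hc⟩ := isConj_iff.1 (hLs x hx).symm
      rw [← hc]
      exact hcc x hx c
    have hb : BASE1 (π '' L) r := by
      refine ih r hr (fun i => π (g i)) ?_ ?_ ?_ ?_
      · intro i j hij
        exact uni i j (key _ (hgL j) _ (hgL i) hij)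
      · intro y
        constructor
        · rintro ⟨x, hx, rfl⟩
          obtain ⟨i, hi⟩ := (hI x).1 hx
          exact ⟨i, MonoidHom.map_isConj π hi⟩
        · rintro ⟨i, hi⟩
          obtain ⟨c, hc⟩ := isConj_iff.1 hi.symm
          obtain ⟨c', rfl⟩ := hsur c
          refine ⟨c' * g i * c'⁻¹, hcc _ (hgL i) c', ?_⟩
          rw [← hc, map_mul, map_mul, map_inv]
      · rintro _ ⟨x, hx, rfl⟩
        rw [hord x hx]
        exact hpr x hx
      · rintro _ ⟨x, hx, rfl⟩ j hj
        rw [hord x hx] at hj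
        exact ⟨x ^ j, hpw x hx j hj, map_pow π x j⟩
    obtain ⟨l, hl, he⟩ := hπ.exponent
    have hS : STEP l π := ⟨hl, hsur, hπ.ne, hcom, he, hπ.minimal, ⟨s, hsec⟩, hπ.projective⟩
    exact base1_lfs hl.pos (H71.KA.lfs_step hst hS s hsec) hsur L (π '' L) hsL' hcc hb

/-- the lower bound from a part `C` in the class `MC` -/
theorem low_mcc {n : ℕ} (hn : 2 ≤ n) (G : Subgroup (Equiv.Perm (Fin n)))
    (hG : MulAction.IsPretransitive G (Fin n)) (C : Set G) (hC : Part G C) (h : H51.K3.MC C) : LowC G C :=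
  lowc_of_base1 hn G hG C hC fun r hr g uni hI =>
    mcc_base H51.OW.apm4x (fun _ hp => H35.UY.apu3u hp) H51.SN.stpf h r hr g uni hI (part_prime hC) hC.pow

end H51.K3
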