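import Pool.Agent.H51.K3.Low
import Pool.Agent.H71.GT.Ab

/-!
# [H51 K3 MET] `T' = ⟨C⟩'` abelian, of order prime to `|G / C_G(T')|` and to the orders of the elements of `C` outside `T'`

`met_two`: `T'` has a complement in `G`, and `(G, C)` is in the class `MC` (`Two`).
-/

set_option autoImplicit false

open scoped Classical commutatorElement

noncomputable section

namespace H51.K3

/-- an abelian quotient generated by elements of order prime to `k` has order prime to `k` -/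
theorem cop_quot {G : Type} [Group G] [Finite G] (C : Set G) (T N : Subgroup G) (hT : T = Subgroup.closure C)
    (hN : N.Normal) (hd : ⁅T, T⁆ ≤ N) (k : ℕ)
    (hC : ∀ x ∈ C, x ∈ N ∨ Nat.Coprime (orderOf x) k) : Nat.Coprime (N.relIndex T) k := by
  rw [Nat.coprime_comm]
  refine Nat.Coprime.symm (Nat.coprime_of_dvd fun q hq h1 h2 => ?_)
  -- every element of `T` has a power prime to `q` in `N`
  have key : ∀ x ∈ T, ∃ j : ℕ, ¬ q ∣ j ∧ x ^ j ∈ N := by
    intro x hx
    have hx' := hx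
    rw [hT] at hx'
    induction hx' using Subgroup.closure_induction with
    | mem z hz =>
      rcases hC z hz with h3 | h3
      · exact ⟨1, hq.one_lt.ne' ∘ Nat.dvd_one.1, by rwa [pow_one]⟩
      · refine ⟨orderOf z, fun h4 => ?_, by rw [pow_orderOf_eq_one]; exact N.one_mem⟩
        exact Nat.Prime.not_coprime_iff_dvd.2 ⟨q, hq, h4, h2⟩ h3
    | one => exact ⟨1, hq.one_lt.ne' ∘ Nat.dvd_one.1, by rw [one_pow]; exact N.one_mem⟩
    | mul a b ha hb iha ihb =>
      have ha' : a ∈ T := by rw [hT]; exact ha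
      have hb' : b ∈ T := by rw [hT]; exact hb
      obtain ⟨i, hi, hi2⟩ := iha ha'
      obtain ⟨j, hj, hj2⟩ := ihb hb'
      refine ⟨i * j, fun h => (hq.dvd_mul.1 h).elim hi hj, ?_⟩
      have h5 : ∀ m : ℕ, (a * b) ^ m * (a ^ m * b ^ m)⁻¹ ∈ N := by
        intro m
        have h6 : (QuotientGroup.mk (a * b) : G ⧸ N) ^ m = (a : G ⧸ N) ^ m * (b : G ⧸ N) ^ m := by
          have h7 : Commute (a : G ⧸ N) (b : G ⧸ N) := by
            show (a : G ⧸ N) * (b : G ⧸ N) = (b : G ⧸ N) * (a : G ⧸ N)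
            rw [← QuotientGroup.mk_mul, ← QuotientGroup.mk_mul, QuotientGroup.eq]
            have h8 := hd (Subgroup.commutator_mem_commutator (T.inv_mem hb') (T.inv_mem ha'))
            have h9 : (a * b)⁻¹ * (b * a) = ⁅b⁻¹, a⁻¹⁆ := by
              rw [commutatorElement_def]
              group
            rw [h9]
            exact h8
          rw [QuotientGroup.mk_mul, h7.mul_pow]
        rw [← QuotientGroup.mk_pow, ← QuotientGroup.mk_pow, ← QuotientGroup.mk_pow, ← QuotientGroup.mk_mul,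
          QuotientGroup.eq] at h6
        have h10 := hN.conj_mem _ (N.inv_mem h6) ((a * b) ^ m)
        have h11 : (a * b) ^ m * (((a * b) ^ m)⁻¹ * (a ^ m * b ^ m))⁻¹ * ((a * b) ^ m)⁻¹ =
            (a * b) ^ m * (a ^ m * b ^ m)⁻¹ := by group
        rwa [h11] at h10
      have h6 : a ^ (i * j) * b ^ (i * j) ∈ N := by
        refine N.mul_mem ?_ ?_
        · rw [pow_mul]
          exact N.pow_mem hi2 _
        · rw [mul_comm i j, pow_mul]
          exact N.pow_mem hj2 _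
      have h7 := N.mul_mem (h5 (i * j)) h6
      rwa [inv_mul_cancel_right] at h7
    | inv a ha iha =>
      have ha' : a ∈ T := by rw [hT]; exact ha
      obtain ⟨i, hi, hi2⟩ := iha ha'
      exact ⟨i, hi, by rw [inv_pow]; exact N.inv_mem hi2⟩
  -- Cauchy in `T / N`
  have : Fact q.Prime := ⟨hq⟩
  have hfin : Finite (T ⧸ N.subgroupOf T) := inferInstance
  obtain ⟨y, hy⟩ := exists_prime_orderOf_dvd_card' (G := T ⧸ N.subgroupOf T) q (by
    show q ∣ (N.subgroupOf T).index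
    exact h1)
  obtain ⟨x, rfl⟩ := QuotientGroup.mk_surjective y
  obtain ⟨j, hj, hj2⟩ := key x x.2
  have h3 : (QuotientGroup.mk x : T ⧸ N.subgroupOf T) ^ j = 1 := by
    rw [← QuotientGroup.mk_pow]
    exact (QuotientGroup.eq_one_iff _).2 hj2
  rw [← orderOf_dvd_iff_pow_eq_one, hy] at h3
  exact hj h3

theorem met_two {G : Type} [Group G] [Finite G] (C : Set G) (T : Subgroup G) (hT : T = Subgroup.closure C) [T.Normal]
    (hcom : ∀ x ∈ ⁅T, T⁆, ∀ y ∈ ⁅T, T⁆, x * y = y * x)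
    (hact : Nat.Coprime (Nat.card (⁅T, T⁆ : Subgroup G))
      (Subgroup.centralizer ((⁅T, T⁆ : Subgroup G) : Set G)).index)
    (htyp : ∀ x ∈ C, x ∈ ⁅T, T⁆ ∨ Nat.Coprime (orderOf x) (Nat.card (⁅T, T⁆ : Subgroup G))) :
    ∃ A : Subgroup G, Two C ⁅T, T⁆ A := by
  obtain ⟨N, hN⟩ : ∃ N : Subgroup G, N = ⁅T, T⁆ := ⟨_, rfl⟩
  have hNn : N.Normal := by rw [hN]; infer_instance
  have hNT : N ≤ T := by
    rw [hN, Subgroup.commutator_le]
    intro a ha b hb
    rw [commutatorElement_def]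
    exact T.mul_mem (T.mul_mem (T.mul_mem ha hb) (T.inv_mem ha)) (T.inv_mem hb)
  have hcomN : ∀ x ∈ N, ∀ y ∈ N, x * y = y * x := by rw [hN]; exact hcom
  have htypN : ∀ x ∈ C, x ∈ N ∨ Nat.Coprime (orderOf x) (Nat.card N) := by rw [hN]; exact htyp
  have hidx : Nat.Coprime (N.relIndex T) (Nat.card N) :=
    cop_quot C T N hT hNn (le_of_eq hN.symm) (Nat.card N) htypN
  -- the complement in `T`
  have hcard : Nat.card (N.subgroupOf T) = Nat.card N := Nat.card_congr (Subgroup.subgroupOfEquivOfLe hNT).toEquiv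
  obtain ⟨P₀, hP₀⟩ := Subgroup.exists_right_complement'_of_coprime (N := N.subgroupOf T) (by
    rw [hcard, Nat.coprime_comm]
    exact hidx)
  obtain ⟨P, hP⟩ : ∃ P : Subgroup G, P = P₀.map T.subtype := ⟨_, rfl⟩
  have hPT : P ≤ T := by
    rw [hP]
    rintro _ ⟨x, -, rfl⟩
    exact x.2
  have hdec : ∀ b ∈ T, ∃ y ∈ N, ∃ h ∈ P, b = y * h := by
    intro b hb
    obtain ⟨⟨⟨v, hv⟩, ⟨m, hm⟩⟩, hvm, -⟩ := (Subgroup.isComplement_iff_existsUnique.1 hP₀) ⟨b, hb⟩
    refine ⟨v, hv, m, ?_, (congrArg Subtype.val hvm).symm⟩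
    rw [hP]
    exact ⟨m, hm, rfl⟩
  have hNP : N ⊓ P = ⊥ := by
    rw [eq_bot_iff]
    rintro x ⟨h1, h2⟩
    rw [hP] at h2
    obtain ⟨m, hm, rfl⟩ := h2
    have h3 := Subgroup.disjoint_def.1 hP₀.disjoint (x := m) h1 hm
    rw [h3]
    exact Subgroup.mem_bot.2 rfl
  have hcardP : Nat.card P = N.relIndex T := by
    have h1 : Nat.card P = Nat.card P₀ := by
      rw [hP]
      exact Subgroup.card_map_of_injective T.subtype_injective
    rw [h1]
    have h2 := hP₀.card_mul_card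
    have h3 := Subgroup.card_mul_index (N.subgroupOf T)
    have h4 : 0 < Nat.card (N.subgroupOf T) := Nat.card_pos
    have h5 : Nat.card (N.subgroupOf T) * Nat.card P₀ = Nat.card (N.subgroupOf T) * (N.subgroupOf T).index :=
      h2.trans h3.symm
    exact Nat.eq_of_mul_eq_mul_left h4 h5
  have hfr := fun g => H71.GT.frat N P T hcomN hPT hdec hNP (by rw [hcardP, Nat.coprime_comm]; exact hidx) g
  obtain ⟨A, hA⟩ : ∃ A : Subgroup G, A = (Subgroup.normalizer (P : Set G) : Subgroup G) := ⟨_, rfl⟩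
  -- `N ∩ A = 1`
  have hNA : ∀ y ∈ N, y ∈ A → y = 1 := by
    intro y hy hyA
    rw [hA, Subgroup.mem_normalizer_iff] at hyA
    have hyP : ∀ h ∈ P, y * h = h * y := by
      intro h hh
      have h1 : y * h * y⁻¹ * h⁻¹ ∈ P := P.mul_mem ((hyA h).1 hh) (P.inv_mem hh)
      have h2 : y * h * y⁻¹ * h⁻¹ ∈ N := by
        have h3 : y * h * y⁻¹ * h⁻¹ = y * (h * y⁻¹ * h⁻¹) := by group
        rw [h3]
        exact N.mul_mem hy (hNn.conj_mem _ (N.inv_mem hy) h)
      have h3 : y * h * y⁻¹ * h⁻¹ ∈ N ⊓ P := ⟨h2, h1⟩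
      rw [hNP, Subgroup.mem_bot, mul_inv_eq_one, mul_inv_eq_iff_eq_mul] at h3
      exact h3
    have hyT : ∀ b ∈ T, y * b = b * y := by
      intro b hb
      obtain ⟨v, hv, h, hh, rfl⟩ := hdec b hb
      rw [← mul_assoc, hcomN y hy v hv, mul_assoc, hyP h hh, mul_assoc]
    -- transfer
    have hc : (⟨y, hNT hy⟩ : T) ∈ commutator T := by
      have h1 : y ∈ (commutator T).map T.subtype := by
        rw [Subgroup.map_subtype_commutator, ← hN]
        exact hy
      obtain ⟨z, hz, hzy⟩ := h1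
      have h2 : z = ⟨y, hNT hy⟩ := Subtype.ext hzy
      rw [← h2]
      exact hz
    have hPc : IsMulCommutative (N.subgroupOf T) :=
      ⟨⟨fun a b => Subtype.ext (Subtype.ext (hcomN _ a.2 _ b.2))⟩⟩
    have key : ∀ (k : ℕ) (g₀ : T), g₀⁻¹ * (⟨y, hNT hy⟩ : T) ^ k * g₀ ∈ N.subgroupOf T →
        g₀⁻¹ * (⟨y, hNT hy⟩ : T) ^ k * g₀ = (⟨y, hNT hy⟩ : T) ^ k := by
      intro k g₀ _
      have h0 : Commute g₀ (⟨y, hNT hy⟩ : T) := Subtype.ext (hyT g₀ g₀.2).symm
      have h1 : g₀ * (⟨y, hNT hy⟩ : T) ^ k = (⟨y, hNT hy⟩ : T) ^ k * g₀ := h0.pow_right k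
      rw [mul_assoc, ← h1, inv_mul_cancel_left]
    open scoped IsMulCommutative in
    have h2 := MonoidHom.transfer_eq_pow (MonoidHom.id (N.subgroupOf T)) (⟨y, hNT hy⟩ : T) key
    have h3 : MonoidHom.transfer (MonoidHom.id (N.subgroupOf T)) (⟨y, hNT hy⟩ : T) = 1 :=
      Abelianization.commutator_subset_ker _ hc
    rw [h3] at h2
    have h4 : (⟨y, hNT hy⟩ : T) ^ (N.subgroupOf T).index = 1 := (congrArg Subtype.val h2).symm
    have h4' : y ^ (N.relIndex T) = 1 := congrArg Subtype.val h4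
    have h5 : orderOf y ∣ Nat.card N := by
      have h6 := orderOf_dvd_natCard (⟨y, hy⟩ : N)
      rwa [Subgroup.orderOf_mk] at h6
    have h6 : orderOf y ∣ Nat.gcd (N.relIndex T) (Nat.card N) :=
      Nat.dvd_gcd (orderOf_dvd_of_pow_eq_one h4') h5
    rw [hidx, Nat.dvd_one, orderOf_eq_one_iff] at h6
    exact h6
  refine ⟨A, ?_⟩
  have hcompl : Subgroup.IsComplement' N A := by
    refine Subgroup.isComplement'_of_disjoint_and_mul_eq_univ (Subgroup.disjoint_def.2 fun {x} h1 h2 => hNA x h1 h2) ?_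
    ext g
    refine ⟨fun _ => Set.mem_univ _, fun _ => ?_⟩
    obtain ⟨y, hy, n, hn, rfl⟩ := hfr g
    exact ⟨y, hy, n, by rw [hA]; exact hn, rfl⟩
  subst hN
  exact ⟨hcom, hcompl, hact, by rw [← hT], htyp⟩

/-- `T'` abelian, with coprime action -/
theorem low_met {n : ℕ} (hn : 2 ≤ n) (G : Subgroup (Equiv.Perm (Fin n)))
    (hG : MulAction.IsPretransitive G (Fin n)) (C : Set G) (hC : Part G C)
    (hcom : ∀ x ∈ ⁅Subgroup.closure C, Subgroup.closure C⁆, ∀ y ∈ ⁅Subgroup.closure C, Subgroup.closure C⁆,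
      x * y = y * x)
    (hact : Nat.Coprime (Nat.card (⁅Subgroup.closure C, Subgroup.closure C⁆ : Subgroup G))
      (Subgroup.centralizer ((⁅Subgroup.closure C, Subgroup.closure C⁆ : Subgroup G) : Set G)).index)
    (htyp : ∀ x ∈ C, x ∈ ⁅Subgroup.closure C, Subgroup.closure C⁆ ∨
      Nat.Coprime (orderOf x) (Nat.card (⁅Subgroup.closure C, Subgroup.closure C⁆ : Subgroup G))) : LowC G C := by
  have hTn := clo_normal C hC.conj
  obtain ⟨A, hA⟩ := met_two C (Subgroup.closure C) rfl hcom hact htyp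
  exact low_mcc hn G hG C hC (MC.two C _ A hA)

end H51.K3
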