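import Pool.Agent.H88.LB.Spec

/-!
# MP_b39724_nt, LowerBound: the class `MC`, and the lower bound from a part `C` of the elements of least index

Everything in this file is a definition; nothing is proved here. `L` is a set of elements of a group (in the main theorem a set of
elements of least index of a transitive group; they have prime order). The class `MC` is defined by induction; it uses `Projective`
and the class `LC` of `Pool/Agent/H88/LB/Spec.lean`.
-/

noncomputable section

namespace H51.K3

open H88.LB H38.ML.Spec

/-- `V = ker π` is good in `M` with respect to the set `L`, whose elements may have several orders: `π : M → M / V` is surjective,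
`V` is a minimal normal subgroup of `M`, an elementary abelian `l`-group for some prime `l`, projective over `𝔽_l[M / C_M(V)]`, with
a complement (the image of a section `s`) which contains a conjugate of every element of `L`. -/
structure PStep {M Mb : Type} [Group M] [Group Mb] (L : Set M) (π : M →* Mb) : Prop where
  surjective : Function.Surjective π
  split : ∃ s : Mb →* M, (∀ x, π (s x) = x) ∧ ∀ c ∈ L, ∃ g : M, g * c * g⁻¹ ∈ s.range
  ne : π.ker ≠ ⊥
  minimal : ∀ U : Subgroup M, U.Normal → U ≤ π.ker → U = ⊥ ∨ U = π.ker
  comm : IsMulCommutative π.ker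
  exponent : ∃ l : ℕ, l.Prime ∧ ∀ x ∈ π.ker, x ^ l = 1
  projective : Projective π.ker

/-- `V` is an abelian normal subgroup of `G` of order prime to that of `G / C_G(V)`, and `M` is a supplement of `V` in `G` (that is:
`G = V M`) which contains a conjugate of every element of `L`. -/
structure Sup {G : Type} [Group G] (L : Set G) (V M : Subgroup G) [V.Normal] : Prop where
  comm : ∀ x ∈ V, ∀ y ∈ V, x * y = y * x
  coprime : Nat.Coprime (Nat.card V) (Subgroup.centralizer (V : Set G)).index
  mul : ∀ g : G, ∃ v ∈ V, ∃ m ∈ M, g = v * m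
  mem : ∀ x ∈ L, ∃ g : G, g * x * g⁻¹ ∈ M

/-- `N` is an abelian normal subgroup of `G` with a complement `A`, of order prime to that of `G / C_G(N)`; the derived group of the
subgroup `T` generated by `L` is contained in `N`; the elements of `L` outside `N` have order prime to that of `N`. -/
structure Two {G : Type} [Group G] (L : Set G) (N A : Subgroup G) [N.Normal] : Prop where
  comm : ∀ x ∈ N, ∀ y ∈ N, x * y = y * x
  compl : Subgroup.IsComplement' N A
  coprime : Nat.Coprime (Nat.card N) (Subgroup.centralizer (N : Set G)).index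
  derived : ⁅Subgroup.closure L, Subgroup.closure L⁆ ≤ N
  type : ∀ x ∈ L, x ∈ N ∨ Nat.Coprime (orderOf x) (Nat.card N)

/-- The smallest class of pairs `(G, L)` (`L` a set of elements of the group `G`) such that:
(`two`) it contains `(G, L)` if `G` has a normal subgroup `N` as in `Two`;
(`loc`) it contains `(G, L)` if for some prime `p` all elements of `L` satisfy `x ^ p = 1` and `(G, L)` is in the class `LC p`;
(`sup`) it contains `(G, L)` if it contains `(M, L ∩ M)` for a subgroup `M` of `G` as in `Sup`;
(`step`) it contains `(G, L)` if it contains `(G / V, L mod V)` for some `V` which is good in `G` with respect to `L`. -/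
inductive MC : {G : Type} → [Group G] → Set G → Prop
  | two {G : Type} [Group G] (L : Set G) (N A : Subgroup G) [N.Normal] (h : Two L N A) : MC L
  | loc {G : Type} [Group G] (L : Set G) (p : ℕ) (hp : p.Prime) (hL : ∀ x ∈ L, x ^ p = 1) (h : LC p L) : MC L
  | sup {G : Type} [Group G] (L : Set G) (V M : Subgroup G) [V.Normal] (hV : Sup L V M)
      (h : MC {x : M | (x : G) ∈ L}) : MC L
  | step {G Gb : Type} [Group G] [Group Gb] (L : Set G) (π : G →* Gb) (hπ : PStep L π) (h : MC (π '' L)) : MC L

variable {n : ℕ}

/-- `C` is a nonempty set of elements of least index of `G`, closed under conjugation and under the powers `x ↦ x ^ j`, `j` prime to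
the order of `x`. -/
structure Part (G : Subgroup (Equiv.Perm (Fin n))) (C : Set G) : Prop where
  nonempty : C.Nonempty
  least : C ⊆ Lst G
  conj : ∀ x ∈ C, ∀ g : G, g * x * g⁻¹ ∈ C
  pow : ∀ x ∈ C, ∀ j : ℕ, Nat.Coprime j (orderOf x) → x ^ j ∈ C

/-- The elements of `G = G₁ ≀ H` which act as an element of `C₁` on one block and trivially on the other blocks. -/
def wrC {m k : ℕ} (e : Fin m × Fin k ≃ Fin n) (G₁ : Subgroup (Equiv.Perm (Fin m))) (C₁ : Set G₁)
    (G : Subgroup (Equiv.Perm (Fin n))) : Set G :=
  {σ : G | ∃ (j : Fin k) (g : G₁), g ∈ C₁ ∧ ∀ x i, (σ : Equiv.Perm (Fin n)) (e (x, i)) =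
    e (if i = j then (g : Equiv.Perm (Fin m)) x else x, i)}

/-- The number of `K`-conjugacy classes of elements of `C`. -/
def betaC (K : IntermediateField ℚ (AlgebraicClosure ℚ)) (G : Subgroup (Equiv.Perm (Fin n))) (C : Set G) : ℕ :=
  Nat.card (Quot fun g h : {g : G // g ∈ C} => KConj K (AlgebraicClosure ℚ) G g.1 h.1)

/-- The lower bound over `K`: there is `c > 0` with `n_K(G,B) ≥ c B^(1/ind(G)) (log B)^(β_K(C)-1)` for all large `B`. -/
def LowKC (K : IntermediateField ℚ (AlgebraicClosure ℚ)) [NumberField K]
    (G : Subgroup (Equiv.Perm (Fin n))) (C : Set G) : Prop :=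
  ∃ c B₀ : ℝ, 0 < c ∧ ∀ B : ℝ, B₀ ≤ B →
    ((⌈c * B ^ (1 / (indG G : ℝ)) * Real.log B ^ (betaC K G C - 1)⌉₊ : ℕ) : ℕ∞) ≤
      nK K (AlgebraicClosure ℚ) G B

/-- The lower bound over all sufficiently large number fields. -/
def LowC (G : Subgroup (Equiv.Perm (Fin n))) (C : Set G) : Prop :=
  ∃ K₀ : IntermediateField ℚ (AlgebraicClosure ℚ), NumberField K₀ ∧
    ∀ K : IntermediateField ℚ (AlgebraicClosure ℚ), ∀ _ : NumberField K, K₀ ≤ K → LowKC K G C

end H51.K3
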