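import Pool.Agent.H51.K3.Wr
import Pool.Agent.H71.CL.Lcs

/-!
# [H51 K3 STG] staging file of `LowerBound` v5
-/

set_option autoImplicit false

noncomputable section

namespace H51.K3

open H38.ML.Spec H88.LB

theorem stg (n : ℕ) (hn : 2 ≤ n) (G : Subgroup (Equiv.Perm (Fin n)))
    (hG : MulAction.IsPretransitive G (Fin n)) :
    (Part G (Lst G) ∧ ∀ K : IntermediateField ℚ (AlgebraicClosure ℚ),
      betaC K G (Lst G) = betaAll K (AlgebraicClosure ℚ) G) ∧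
    (∀ C : Set G, Part G C →
      (Group.IsSolvable (Subgroup.closure C) →
        (∀ q : ℕ, q.Prime → q ∣ Nat.card (Subgroup.closure C) → ¬ q ^ 3 ∣ Nat.card G) → LowC G C) ∧
      ((∃ j : ℕ, Subgroup.closure C ≤ Subgroup.upperCentralSeries G j) → LowC G C) ∧
      (MC C → LowC G C) ∧
      (∀ p : ℕ, p.Prime → (∀ h ∈ C, h ^ p = 1) →
        Group.IsSolvable (Subgroup.closure C) →
        (∀ Q : Subgroup G, Q ≤ Subgroup.closure C → IsPGroup p Q → IsMulCommutative Q) →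
        (∀ q : ℕ, q.Prime →
          q ∣ Nat.card (⁅Subgroup.closure C, Subgroup.closure C⁆ : Subgroup G) →
          ∀ Q : Subgroup G, IsPGroup q Q → IsMulCommutative Q) → LowC G C) ∧
      ((∃ j : ℕ, Subgroup.closure C ⊓ (⊤ : Subgroup G).lowerCentralSeries j = ⊥) →
        ∃ m : ℕ, 0 < m ∧ ∀ K : IntermediateField ℚ (AlgebraicClosure ℚ), ∀ _ : NumberField K,
          (∃ z : K, IsPrimitiveRoot z m) → IsGaloisGroup K (AlgebraicClosure ℚ) G → LowKC K G C)) ∧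
    (∀ (m k : ℕ) (_ : 2 ≤ m) (_ : 0 < k) (e : Fin m × Fin k ≃ Fin n)
      (G₁ : Subgroup (Equiv.Perm (Fin m))) (_ : MulAction.IsPretransitive G₁ (Fin m))
      (H : Subgroup (Equiv.Perm (Fin k))) (_ : MulAction.IsPretransitive H (Fin k))
      (_ : IsWreath e G₁ H G),
      wrC e G₁ (Lst G₁) G = Lst G ∧
      ∀ C₁ : Set G₁, Part G₁ C₁ →
        ((∃ j : ℕ, Subgroup.closure C₁ ≤ Subgroup.upperCentralSeries G₁ j) ∨
          ∃ p : ℕ, p.Prime ∧ (∀ h ∈ C₁, h ^ p = 1) ∧ SC p (Subgroup.closure C₁) C₁) →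
        Part G (wrC e G₁ C₁ G) ∧ LowC G (wrC e G₁ C₁ G)) :=
  ⟨⟨part_lst hn G hG, fun _ => rfl⟩,
    fun C hC => ⟨low_cfc hn G hG C hC, low_hyc hn G hG C hC, low_mcc hn G hG C hC,
      fun p hp hL hsol hP hQ => low_agc hn G hG C hC p hp hL hsol hP hQ,
      fun ⟨j, hj⟩ => H71.CL.low_lcs n hn G hG C hC.least hC.nonempty hC.conj j hj⟩,
    fun m k hm hk e G₁ hG₁ H hH hW => ⟨wr_lst hm hk e G₁ hG₁ H G hW,
      fun C₁ hC₁ h => ⟨wr_part hm hk e G₁ hG₁ H G hW C₁ hC₁, low_wrc hm hk e G₁ hG₁ H hH G hW C₁ hC₁ h⟩⟩⟩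

end H51.K3
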