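import Pool.Agent.H51.K3.Spec
import Pool.Agent.H51.K2.Sup
import Pool.Agent.H51.K2.Thm

/-!
# [H51 K3 TWO] `BASE1` for `Two`, the exponent of `N` arbitrary

* `sup_cls`: the classes of `L ∩ M` in `M`, for `Sup L V M`. `sup_base`: `BASE1` for `M` gives `BASE1` for `G`.
* `two_base`: `N₁ = ⟨L ∩ N⟩` has squarefree exponent, `M = N₁ A` is a supplement of `N`.
-/

set_option autoImplicit false

open scoped Classical commutatorElement

noncomputable section

namespace H51.K3

open H51.K2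

/-- `|G / C_G(V)|` -/
theorem cen_idx {G : Type} [Group G] (V : Subgroup G) [V.Normal] :
    (Subgroup.centralizer (V : Set G)).index = Nat.card (MulAut.conjNormal : G →* MulAut V).range := by
  rw [← Subgroup.index_ker]
  congr 1
  ext g
  rw [Subgroup.mem_centralizer_iff, MonoidHom.mem_ker]
  constructor
  · intro h
    refine MulEquiv.ext fun y => Subtype.ext ?_
    rw [MulAut.conjNormal_apply, MulAut.one_apply, ← h y y.2, mul_inv_cancel_right]
  · intro h y hy
    have h1 := congrArg (fun f : MulAut V => ((f ⟨y, hy⟩ : V) : G)) h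
    have h2 : g * y * g⁻¹ = y := h1
    exact (mul_inv_eq_iff_eq_mul.1 h2).symm

theorem coe_conj {G : Type} [Group G] {M : Subgroup G} {x y : M} (h : IsConj x y) : IsConj (x : G) (y : G) := by
  obtain ⟨c, hc⟩ := isConj_iff.1 h
  exact isConj_iff.2 ⟨(c : G), congrArg Subtype.val hc⟩

theorem sup_cls {G : Type} [Group G] [Finite G] (L : Set G) (V M : Subgroup G) [V.Normal] (hV : Sup L V M)
    (hp : ∀ x ∈ L, (orderOf x).Prime) {r : ℕ} (g : Fin r → G) (uni : ∀ i j, IsConj (g i) (g j) → i = j)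
    (hI : ∀ x, x ∈ L ↔ ∃ i, IsConj x (g i)) :
    ∃ g' : Fin r → M, (∀ i j, IsConj (g' i) (g' j) → i = j) ∧
      ∀ x : M, x ∈ {x : M | (x : G) ∈ L} ↔ ∃ i, IsConj x (g' i) := by
  have h1 : ∀ i, ∃ u : G, u * g i * u⁻¹ ∈ M := fun i => hV.mem _ ((hI _).2 ⟨i, IsConj.refl _⟩)
  choose u hu using h1
  have h2 : ∀ i, IsConj (g i) (u i * g i * (u i)⁻¹) := fun i => isConj_iff.2 ⟨u i, rfl⟩
  refine ⟨fun i => ⟨_, hu i⟩, fun i j h => ?_, fun x => ⟨fun hx => ?_, ?_⟩⟩
  · exact uni i j ((h2 i).trans ((coe_conj h).trans (h2 j).symm))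
  · obtain ⟨i, hi⟩ := (hI _).1 hx
    refine ⟨i, conj_sup V M hV.comm (by rw [← cen_idx]; exact hV.coprime) hV.mul ?_ (hi.trans (h2 i))⟩
    rw [← Subgroup.orderOf_coe]
    exact hp _ hx
  · rintro ⟨i, hi⟩
    exact (hI _).2 ⟨i, (coe_conj hi).trans (h2 i).symm⟩

theorem sup_base {G : Type} [Group G] [Finite G] (L : Set G) (hcc : ∀ x ∈ L, ∀ g : G, g * x * g⁻¹ ∈ L)
    (V M : Subgroup G) [V.Normal] (hV : Sup L V M) {r : ℕ} (h : BASE1 {x : M | (x : G) ∈ L} r) : BASE1 L r :=
  base1_sup L hcc V M hV.comm (by rw [← cen_idx]; exact hV.coprime) hV.mul h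

theorem two_base {G : Type} [Group G] [Finite G] (L : Set G) (hp : ∀ x ∈ L, (orderOf x).Prime)
    (hcc : ∀ x ∈ L, ∀ g : G, g * x * g⁻¹ ∈ L) (N A : Subgroup G) [N.Normal] (h : Two L N A)
    {r : ℕ} (hr : 1 ≤ r) (g : Fin r → G) (uni : ∀ i j, IsConj (g i) (g j) → i = j)
    (hI : ∀ x, x ∈ L ↔ ∃ i, IsConj x (g i)) : BASE1 L r := by
  obtain ⟨N₁, hN₁⟩ : ∃ N₁ : Subgroup G, N₁ = Subgroup.closure (L ∩ N) := ⟨_, rfl⟩
  have h1 : N₁ ≤ N := by
    rw [hN₁, Subgroup.closure_le]
    exact fun x hx => hx.2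
  have hn1 : N₁.Normal := by
    refine ⟨fun y hy g => ?_⟩
    rw [hN₁] at hy ⊢
    induction hy using Subgroup.closure_induction with
    | mem z hz => exact Subgroup.subset_closure ⟨hcc z hz.1 g, Subgroup.Normal.conj_mem inferInstance z hz.2 g⟩
    | one => rw [mul_one, mul_inv_cancel]; exact one_mem _
    | mul a b _ _ ha hb =>
      have h1 : g * (a * b) * g⁻¹ = (g * a * g⁻¹) * (g * b * g⁻¹) := by group
      rw [h1]
      exact mul_mem ha hb
    | inv a _ ha =>
      have h1 : g * a⁻¹ * g⁻¹ = (g * a * g⁻¹)⁻¹ := by group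
      rw [h1]
      exact inv_mem ha
  -- the exponent of `N₁`
  have hexp : ∀ x ∈ N₁, x ^ primorial (Nat.card G) = 1 := by
    intro x hx
    rw [hN₁] at hx
    have hx2 : x ∈ N ∧ x ^ primorial (Nat.card G) = 1 := by
      induction hx using Subgroup.closure_induction with
      | mem z hz =>
        refine ⟨hz.2, ?_⟩
        have h2 : orderOf z ∣ primorial (Nat.card G) :=
          (Nat.Prime.dvd_primorial_iff (hp z hz.1)).2 (Nat.le_of_dvd Nat.card_pos (orderOf_dvd_natCard z))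
        exact orderOf_dvd_iff_pow_eq_one.1 h2
      | one => exact ⟨N.one_mem, one_pow _⟩
      | mul a b _ _ ha hb =>
        refine ⟨N.mul_mem ha.1 hb.1, ?_⟩
        have h2 : Commute a b := h.comm a ha.1 b hb.1
        rw [h2.mul_pow, ha.2, hb.2, one_mul]
      | inv a _ ha => exact ⟨N.inv_mem ha.1, by rw [inv_pow, ha.2, inv_one]⟩
    exact hx2.2
  obtain ⟨M, hM⟩ : ∃ M : Subgroup G, M = N₁ ⊔ A := ⟨_, rfl⟩
  have hN1M : N₁ ≤ M := by rw [hM]; exact le_sup_left
  have hAM : A ≤ M := by rw [hM]; exact le_sup_right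
  have hGm : ∀ g : G, ∃ v ∈ N, ∃ m ∈ A, g = v * m := by
    intro g
    obtain ⟨⟨⟨v, hv⟩, ⟨m, hm⟩⟩, hvm, -⟩ := (Subgroup.isComplement_iff_existsUnique.1 h.compl) g
    exact ⟨v, hv, m, hm, hvm.symm⟩
  have hdj : ∀ x, x ∈ N → x ∈ A → x = 1 := by
    intro x h1 h2
    have h3 := h.compl.disjoint
    exact Subgroup.disjoint_def.1 h3 h1 h2
  have hMm : ∀ x ∈ M, ∃ v ∈ N₁, ∃ m ∈ A, x = v * m := by
    intro x hx
    rw [hM] at hx
    have h2 : x ∈ ((N₁ ⊔ A : Subgroup G) : Set G) := hx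
    rw [Subgroup.normal_mul] at h2
    obtain ⟨v, hv, m, hm, rfl⟩ := h2
    exact ⟨v, hv, m, hm, rfl⟩
  have hNM : ∀ x ∈ M, x ∈ N → x ∈ N₁ := by
    intro x hx hxN
    obtain ⟨v, hv, m, hm, rfl⟩ := hMm x hx
    have h2 : m ∈ N := by
      have h3 := N.mul_mem (N.inv_mem (h1 hv)) hxN
      rwa [inv_mul_cancel_left] at h3
    rw [hdj m h2 hm, mul_one]
    exact hv
  have hS : Sup L N M := by
    refine ⟨h.comm, h.coprime, fun g => ?_, fun x hx => ?_⟩
    · obtain ⟨v, hv, m, hm, hg⟩ := hGm g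
      exact ⟨v, hv, m, hAM hm, hg⟩
    · rcases h.type x hx with h2 | h2
      · refine ⟨1, ?_⟩
        rw [one_mul, inv_one, mul_one]
        refine hN1M ?_
        rw [hN₁]
        exact Subgroup.subset_closure ⟨hx, h2⟩
      · obtain ⟨v, hv, m, hm, rfl⟩ := hGm x
        have h3 : (v * m) ^ orderOf (v * m) = 1 := pow_orderOf_eq_one _
        have h4 : ∀ j : ℕ, (v * m) ^ j * (m ^ j)⁻¹ ∈ N := by
          intro j
          induction j with
          | zero => rw [pow_zero, pow_zero, inv_one, mul_one]; exact N.one_mem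
          | succ j ih =>
            have h5 : (v * m) ^ (j + 1) * (m ^ (j + 1))⁻¹ = v * (m * ((v * m) ^ j * (m ^ j)⁻¹) * m⁻¹) := by
              rw [pow_succ' (v * m), pow_succ' m]
              group
            rw [h5]
            exact N.mul_mem hv (Subgroup.Normal.conj_mem inferInstance _ ih m)
        have h6 : m ^ orderOf (v * m) = 1 := by
          refine hdj _ ?_ (A.pow_mem hm _)
          have h7 := h4 (orderOf (v * m))
          rw [h3, one_mul] at h7
          have h8 := N.inv_mem h7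
          rwa [inv_inv] at h8
        obtain ⟨s, hs, hs2⟩ := H71.KA.zas N h.comm
          (fun x hx => Subgroup.Normal.conj_mem inferInstance x hx m) hv h3 h6 h2
        refine ⟨s⁻¹, ?_⟩
        rw [hs2]
        have h9 : s⁻¹ * (s * m * s⁻¹) * s⁻¹⁻¹ = m := by group
        rw [h9]
        exact hAM hm
  refine sup_base L hcc N M hS ?_
  obtain ⟨g', uni', hI'⟩ := sup_cls L N M hS hp g uni hI
  have hcard : Nat.card (N₁.subgroupOf M) = Nat.card N₁ := Nat.card_congr (Subgroup.subgroupOfEquivOfLe hN1M).toEquiv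
  have hdvd : Nat.card N₁ ∣ Nat.card N := Subgroup.card_dvd_of_le h1
  have hT : H51.K2.Two {x : M | (x : G) ∈ L} (N₁.subgroupOf M) (A.subgroupOf M) := by
    refine ⟨fun x hx y hy => ?_, ⟨primorial (Nat.card G), squarefree_primorial _, fun x hx => ?_⟩, ?_, ?_, ?_, ?_⟩
    · exact Subtype.ext (h.comm x (h1 hx) y (h1 hy))
    · exact Subtype.ext (hexp x hx)
    · refine Subgroup.isComplement_iff_existsUnique.2 fun x => ?_
      obtain ⟨v, hv, m, hm, hx⟩ := hMm x x.2
      refine ⟨(⟨⟨v, hN1M hv⟩, hv⟩, ⟨⟨m, hAM hm⟩, hm⟩), Subtype.ext hx.symm, ?_⟩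
      rintro ⟨⟨⟨v', hv'⟩, hv2⟩, ⟨⟨m', hm'⟩, hm2⟩⟩ he
      have he' : v' * m' = v * m := (congrArg Subtype.val he).trans hx
      have h2 : v⁻¹ * v' = m * m'⁻¹ := by
        rw [inv_mul_eq_iff_eq_mul, ← mul_assoc, ← he', mul_inv_cancel_right]
      have h3 : v⁻¹ * v' = 1 := by
        refine hdj _ (N.mul_mem (N.inv_mem (h1 hv)) (h1 hv2)) ?_
        rw [h2]
        exact A.mul_mem hm (A.inv_mem hm2)
      have h4 : v' = v := (inv_mul_eq_one.1 h3).symm
      subst h4
      have h5 : m' = m := mul_left_cancel he'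
      subst h5
      rfl
    · rw [hcard]
      have h2 : Nat.card (MulAut.conjNormal : M →* MulAut (N₁.subgroupOf M)).range ∣
          Nat.card (MulAut.conjNormal : G →* MulAut N).range := by
        have h3 : ((MulAut.conjNormal : G →* MulAut N).comp M.subtype).ker ≤
            (MulAut.conjNormal : M →* MulAut (N₁.subgroupOf M)).ker := by
          intro x hx
          refine MulEquiv.ext fun y => Subtype.ext (Subtype.ext ?_)
          have h4 := congrArg (fun f : MulAut N => ((f ⟨(y : M), h1 y.2⟩ : N) : G)) (hx : _ = (1 : MulAut N))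
          exact h4
        have h4 := Subgroup.index_dvd_of_le h3
        rw [Subgroup.index_ker, Subgroup.index_ker] at h4
        refine h4.trans (Subgroup.card_dvd_of_le ?_)
        rintro _ ⟨x, rfl⟩
        exact ⟨(x : G), rfl⟩
      have h5 := h.coprime
      rw [cen_idx] at h5
      exact (h5.coprime_dvd_left hdvd).coprime_dvd_right h2
    · rw [Subgroup.commutator_le]
      have h2 : ∀ a ∈ Subgroup.closure {x : M | (x : G) ∈ L}, (a : G) ∈ Subgroup.closure L := by
        intro a ha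
        have h3 : Subgroup.closure {x : M | (x : G) ∈ L} ≤ (Subgroup.closure L).comap M.subtype := by
          rw [Subgroup.closure_le]
          intro x hx
          exact Subgroup.subset_closure hx
        exact h3 ha
      intro a ha b hb
      exact hNM _ (⁅a, b⁆ : M).2 (h.derived (Subgroup.commutator_mem_commutator (h2 a ha) (h2 b hb)))
    · intro x hx
      rcases h.type x hx with h2 | h2
      · exact Or.inl (hNM x x.2 h2)
      · refine Or.inr ?_
        rw [hcard, ← Subgroup.orderOf_coe]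
        exact h2.coprime_dvd_right hdvd
  refine base_base1 (twob M {x : M | (x : G) ∈ L} (fun x hx => ?_) (fun x hx y => ?_) (N₁.subgroupOf M)
    (A.subgroupOf M) hT r hr g' uni' hI')
  · rw [← Subgroup.orderOf_coe]
    exact hp _ hx
  · exact hcc _ hx y

end H51.K3
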