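import Pool.Agent.H51.K3.Low
import Pool.Agent.H88.LB.Prd
import Pool.Agent.H88.LB.Blk

/-!
# [H51 K3 WR] the wreath product `G₁ ≀ H` and a part `C₁` of the elements of least index of `G₁`

* `wr_lcc`: `SC p ⟨C₁⟩ C₁` gives `LC p C`, `C = wrC e G₁ C₁ G` (as `H88.LB.wr_lc`). `wr_part`: `Part G C`. `wr_lst`: all elements of least index.
* `low_wrc`: the lower bound.
-/

set_option autoImplicit false

open scoped Classical

noncomputable section

namespace H51.K3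

open H38.ML.Spec H88.LB

variable {m k n : ℕ}

private lemma inv_ap {α : Type} (τ : Equiv.Perm α) (x : α) : τ⁻¹ (τ x) = x :=
  τ.symm_apply_apply x

private lemma blk_cj (e : Fin m × Fin k ≃ Fin n) (σ : Equiv.Perm (Fin n)) (h : Equiv.Perm (Fin k))
    (g : Fin k → Equiv.Perm (Fin m)) (hσ : ∀ x j, σ (e (x, j)) = e (g j x, h j)) (j : Fin k)
    (a : Equiv.Perm (Fin m)) : σ * blk e j a * σ⁻¹ = blk e (h j) (g j * a * (g j)⁻¹) := by
  rw [mul_inv_eq_iff_eq_mul]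
  apply Equiv.ext
  intro y
  obtain ⟨⟨x, i⟩, rfl⟩ := e.surjective y
  rw [Equiv.Perm.mul_apply, Equiv.Perm.mul_apply, blk_ap, hσ, hσ, blk_ap]
  by_cases hi : i = j
  · subst hi
    rw [if_pos rfl, if_pos rfl, Equiv.Perm.mul_apply, Equiv.Perm.mul_apply,
      inv_ap]
  · rw [if_neg hi, if_neg (fun h' => hi (h.injective h'))]

private lemma blk_inj (e : Fin m × Fin k ≃ Fin n) (i j : Fin k) (a b : Equiv.Perm (Fin m))
    (ha : a ≠ 1) (h : blk e i a = blk e j b) : i = j ∧ a = b := by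
  obtain ⟨x, hx⟩ : ∃ x, a x ≠ x := by
    by_contra hcon
    push Not at hcon
    exact ha (Equiv.ext hcon)
  have hij : i = j := by
    by_contra hne
    have h1 : blk e i a (e (x, i)) = blk e j b (e (x, i)) := by rw [h]
    rw [blk_ap, blk_ap, if_pos rfl, if_neg hne] at h1
    exact hx (congrArg Prod.fst (e.injective h1))
  refine ⟨hij, ?_⟩
  subst hij
  apply Equiv.ext
  intro y
  have h1 : blk e i a (e (y, i)) = blk e i b (e (y, i)) := by rw [h]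
  rw [blk_ap, blk_ap, if_pos rfl, if_pos rfl] at h1
  exact congrArg Prod.fst (e.injective h1)

private lemma blk_comm (e : Fin m × Fin k ≃ Fin n) (i j : Fin k) (hij : i ≠ j)
    (a b : Equiv.Perm (Fin m)) : blk e i a * blk e j b = blk e j b * blk e i a := by
  apply Equiv.ext
  intro y
  obtain ⟨⟨x, l⟩, rfl⟩ := e.surjective y
  rw [Equiv.Perm.mul_apply, Equiv.Perm.mul_apply, blk_ap, blk_ap, blk_ap, blk_ap]
  by_cases h1 : l = i
  · subst h1
    rw [if_neg hij, if_pos rfl, if_neg hij]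
  · by_cases h2 : l = j
    · subst h2
      rw [if_pos rfl, if_neg h1, if_neg h1, if_pos rfl]
    · rw [if_neg h2, if_neg h1, if_neg h2]

/-- `blk e j` as a homomorphism to `G` -/
private def iota (e : Fin m × Fin k ≃ Fin n) (G₁ : Subgroup (Equiv.Perm (Fin m)))
    (G : Subgroup (Equiv.Perm (Fin n))) (hb : ∀ (j : Fin k), ∀ g ∈ G₁, blk e j g ∈ G) (j : Fin k) :
    G₁ →* G where
  toFun g := ⟨blk e j g, hb j g g.2⟩
  map_one' := Subtype.ext (by
    show blk e j ((1 : G₁) : Equiv.Perm (Fin m)) = 1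
    rw [Subgroup.coe_one, map_one])
  map_mul' a b := Subtype.ext (by
    show blk e j ((a * b : G₁) : Equiv.Perm (Fin m)) = blk e j a * blk e j b
    rw [Subgroup.coe_mul, map_mul])

private lemma blk_mem {e : Fin m × Fin k ≃ Fin n} {G₁ : Subgroup (Equiv.Perm (Fin m))}
    {H : Subgroup (Equiv.Perm (Fin k))} {G : Subgroup (Equiv.Perm (Fin n))}
    (hG : IsWreath e G₁ H G) : ∀ (j : Fin k), ∀ g ∈ G₁, blk e j g ∈ G := by
  intro j g hg
  refine (hG _).2 ⟨1, H.one_mem, fun i => if i = j then g else 1, ?_, ?_⟩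
  · intro i
    by_cases h : i = j
    · simpa [h] using hg
    · simp [h]
  · intro x i
    rw [blk_ap]
    by_cases h : i = j <;> simp [h]

/-- the action of the stabiliser of the block `j` on that block -/
private lemma act_hom {e : Fin m × Fin k ≃ Fin n} {G₁ : Subgroup (Equiv.Perm (Fin m))}
    {G : Subgroup (Equiv.Perm (Fin n))} (j : Fin k) (M : Subgroup G)
    (hM : ∀ σ ∈ M, ∃ g ∈ G₁, ∀ x, (σ : Equiv.Perm (Fin n)) (e (x, j)) = e (g x, j)) :
    ∃ r : M →* G₁, ∀ (σ : M) x,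
      ((σ : G) : Equiv.Perm (Fin n)) (e (x, j)) = e ((r σ : Equiv.Perm (Fin m)) x, j) := by
  choose f hf hf2 using fun σ : M => hM σ σ.2
  have huniq : ∀ (σ : Equiv.Perm (Fin n)) (a b : Equiv.Perm (Fin m)),
      (∀ x, σ (e (x, j)) = e (a x, j)) → (∀ x, σ (e (x, j)) = e (b x, j)) → a = b := by
    intro σ a b ha hb
    apply Equiv.ext
    intro x
    have := (ha x).symm.trans (hb x)
    exact congrArg Prod.fst (e.injective this)
  refine ⟨{ toFun := fun σ => ⟨f σ, hf σ⟩, map_one' := ?_, map_mul' := ?_ }, fun σ x => hf2 σ x⟩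
  · apply Subtype.ext
    exact huniq 1 _ _ (fun x => hf2 1 x) (fun x => rfl)
  · intro a b
    apply Subtype.ext
    refine huniq (((a : G) : Equiv.Perm (Fin n)) * ((b : G) : Equiv.Perm (Fin n))) _ _
      (fun x => hf2 (a * b) x) (fun x => ?_)
    rw [Equiv.Perm.mul_apply, hf2 b, hf2 a]
    rfl

theorem wr_lcc {p m k n : ℕ} (hm : 2 ≤ m) (hk : 0 < k) (e : Fin m × Fin k ≃ Fin n)
    (G₁ : Subgroup (Equiv.Perm (Fin m)))
    (H : Subgroup (Equiv.Perm (Fin k))) (hH : MulAction.IsPretransitive H (Fin k))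
    (G : Subgroup (Equiv.Perm (Fin n))) (hG : IsWreath e G₁ H G) (C₁ : Set G₁) (hC₁ : Part G₁ C₁)
    (h : SC p (Subgroup.closure C₁) C₁) : LC p (wrC e G₁ C₁ G) := by
  have hb := blk_mem hG
  obtain ⟨L₁, hL₁⟩ : ∃ L₁ : Set G₁, L₁ = C₁ := ⟨_, rfl⟩
  obtain ⟨L, hL⟩ : ∃ L : Set G, L = wrC e G₁ C₁ G := ⟨_, rfl⟩
  rw [← hL]
  rw [← hL₁] at hC₁ h
  set j₀ : Fin k := ⟨0, hk⟩ with hj₀
  set ι : Fin k → (G₁ →* G) := iota e G₁ G hb with hι
  have hιv : ∀ j (g : G₁), ((ι j g : G) : Equiv.Perm (Fin n)) = blk e j g := fun _ _ => rfl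
  -- the elements of `L`
  have hLι : ∀ σ : G, σ ∈ L ↔ ∃ j, ∃ g ∈ L₁, σ = ι j g := by
    intro σ
    rw [hL, hL₁]
    constructor
    · rintro ⟨j, g, hg, hs⟩
      refine ⟨j, g, hg, Subtype.ext (Equiv.ext fun y => ?_)⟩
      obtain ⟨⟨x, i⟩, rfl⟩ := e.surjective y
      rw [hs, hιv, blk_ap]
    · rintro ⟨j, g, hg, rfl⟩
      refine ⟨j, g, hg, fun x i => ?_⟩
      rw [hιv, blk_ap]
  -- `L₁` is not empty and stable under conjugation
  obtain ⟨t₀, ht₀⟩ : ∃ t : G₁, t ∈ L₁ := hC₁.nonempty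
  have hcj : ∀ g t : G₁, t ∈ L₁ → g * t * g⁻¹ ∈ L₁ := fun g t ht => hC₁.conj t ht g
  have hne1 : ∀ t : G₁, t ∈ L₁ → t ≠ 1 := fun t ht => (hC₁.least ht).1
  have hcjT : ∀ g t : G₁, t ∈ Subgroup.closure L₁ → g * t * g⁻¹ ∈ Subgroup.closure L₁ := by
    intro g t ht
    induction ht using Subgroup.closure_induction with
    | mem x hx => exact Subgroup.subset_closure (hcj g x hx)
    | one =>
      rw [mul_one, mul_inv_cancel]
      exact Subgroup.one_mem _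
    | mul x y _ _ hx hy =>
      have : g * (x * y) * g⁻¹ = (g * x * g⁻¹) * (g * y * g⁻¹) := by group
      rw [this]
      exact Subgroup.mul_mem _ hx hy
    | inv x _ hx =>
      have : g * x⁻¹ * g⁻¹ = (g * x * g⁻¹)⁻¹ := by group
      rw [this]
      exact Subgroup.inv_mem _ hx
  -- conjugation
  have hconj : ∀ (σ : G) (h : Equiv.Perm (Fin k)) (g : Fin k → Equiv.Perm (Fin m))
      (hg : ∀ j, g j ∈ G₁), (∀ x j, (σ : Equiv.Perm (Fin n)) (e (x, j)) = e (g j x, h j)) →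
      ∀ j (a : G₁), σ * ι j a * σ⁻¹ = ι (h j) (⟨g j, hg j⟩ * a * ⟨g j, hg j⟩⁻¹) := by
    intro σ h g hg hσ j a
    apply Subtype.ext
    exact blk_cj e σ h g hσ j a
  have hinj : ∀ i j (a b : G₁), a ≠ 1 → ι i a = ι j b → i = j ∧ a = b := by
    intro i j a b ha hab
    obtain ⟨h1, h2⟩ := blk_inj e i j a b (fun h' => ha (Subtype.ext h')) (congrArg Subtype.val hab)
    exact ⟨h1, Subtype.ext h2⟩
  set D : Subgroup G := (Subgroup.closure L₁).map (ι j₀) with hD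
  have hLD : L ∩ D = ι j₀ '' L₁ := by
    ext σ
    constructor
    · rintro ⟨h1, t, -, ht⟩
      obtain ⟨j, g, hg, rfl⟩ := (hLι σ).1 h1
      obtain ⟨rfl, -⟩ := hinj j j₀ g t (hne1 g hg) ht.symm
      exact ⟨g, hg, rfl⟩
    · rintro ⟨g, hg, rfl⟩
      exact ⟨(hLι _).2 ⟨j₀, g, hg, rfl⟩, g, Subgroup.subset_closure hg, rfl⟩
  -- the normaliser of `D`
  have hnD : ∀ (σ : G) (h : Equiv.Perm (Fin k)) (g : Fin k → Equiv.Perm (Fin m)),
      (∀ j, g j ∈ G₁) → (∀ x j, (σ : Equiv.Perm (Fin n)) (e (x, j)) = e (g j x, h j)) →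
      σ ∈ (Subgroup.normalizer (D : Set G) : Subgroup G) → h j₀ = j₀ := by
    intro σ h g hg hσ hn
    have h1 : ι j₀ t₀ ∈ D := ⟨t₀, Subgroup.subset_closure ht₀, rfl⟩
    have h2 := (Subgroup.mem_normalizer_iff.1 hn _).1 h1
    rw [hconj σ h g hg hσ] at h2
    obtain ⟨t, -, ht⟩ := h2
    exact (hinj _ _ _ _ (hne1 _ (hcj ⟨g j₀, hg j₀⟩ t₀ ht₀)) ht.symm).1
  have hsD : ∀ (σ : G) (g : G₁), (∀ x, (σ : Equiv.Perm (Fin n)) (e (x, j₀)) = e ((g : Equiv.Perm (Fin m)) x, j₀)) →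
      ∀ a : G₁, σ * ι j₀ a * σ⁻¹ = ι j₀ (g * a * g⁻¹) := by
    intro σ g hσ a
    obtain ⟨h, hh, g', hg', hs⟩ := (hG σ).1 σ.2
    have h1 : ∀ x, g' j₀ x = (g : Equiv.Perm (Fin m)) x ∧ h j₀ = j₀ := by
      intro x
      have h2 := (hs x j₀).symm.trans (hσ x)
      exact ⟨congrArg Prod.fst (e.injective h2), congrArg Prod.snd (e.injective h2)⟩
    have h3 : h j₀ = j₀ := (h1 ⟨0, by omega⟩).2
    have h4 : g' j₀ = g := Equiv.ext fun x => (h1 x).1
    have h5 : (⟨g' j₀, hg' j₀⟩ : G₁) = g := Subtype.ext h4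
    rw [hconj σ h g' hg' hs, h3, h5]
  have hMS : ∀ σ : G, (∃ g : G₁, ∀ x, (σ : Equiv.Perm (Fin n)) (e (x, j₀)) =
      e ((g : Equiv.Perm (Fin m)) x, j₀)) →
      σ ∈ (Subgroup.normalizer (D : Set G) : Subgroup G) := by
    rintro σ ⟨g, hg⟩
    rw [Subgroup.mem_normalizer_iff]
    intro y
    constructor
    · rintro ⟨t, ht, rfl⟩
      rw [hsD σ g hg]
      exact ⟨_, hcjT g t ht, rfl⟩
    · rintro ⟨t, ht, hty⟩
      refine ⟨g⁻¹ * t * g, ?_, ?_⟩
      · have := hcjT g⁻¹ t ht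
        rwa [inv_inv] at this
      · have h1 := hsD σ g hg (g⁻¹ * t * g)
        have h2 : g * (g⁻¹ * t * g) * g⁻¹ = t := by group
        rw [h2, hty] at h1
        have h3 := mul_right_cancel h1
        exact mul_left_cancel h3
  have hSM : ∀ σ : G, σ ∈ (Subgroup.normalizer (D : Set G) : Subgroup G) →
      ∃ g ∈ G₁, ∀ x, (σ : Equiv.Perm (Fin n)) (e (x, j₀)) = e (g x, j₀) := by
    intro σ hσ
    obtain ⟨h, hh, g', hg', hs⟩ := (hG σ).1 σ.2
    have h3 := hnD σ h g' hg' hs hσ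
    refine ⟨g' j₀, hg' j₀, fun x => ?_⟩
    rw [hs, h3]
  -- the conjugates of `D` in other blocks
  have hout : ∀ (σ : G), σ ∉ (Subgroup.normalizer (D : Set G) : Subgroup G) → ∀ y ∈ D,
      ∃ j, j ≠ j₀ ∧ ∃ b : G₁, σ * y * σ⁻¹ = ι j b := by
    rintro σ hσ _ ⟨t, ht, rfl⟩
    obtain ⟨h, hh, g', hg', hs⟩ := (hG σ).1 σ.2
    refine ⟨h j₀, fun h' => hσ (hMS σ ⟨⟨g' j₀, hg' j₀⟩, fun x => ?_⟩), _,
      hconj σ h g' hg' hs j₀ t⟩
    show (σ : Equiv.Perm (Fin n)) (e (x, j₀)) = e (g' j₀ x, j₀)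
    rw [hs, h']
  refine LC.loc L D ?_ ?_ ?_ ?_ ?_
  · rw [hLD, hD, MonoidHom.map_closure]
  · intro x hx
    obtain ⟨j, g, hg, rfl⟩ := (hLι x).1 hx
    obtain ⟨b, hb'⟩ := hH.exists_smul_eq j j₀
    have hbj : (b : Equiv.Perm (Fin k)) j = j₀ := hb'
    let σ : Equiv.Perm (Fin n) :=
      e.symm.trans ((Equiv.prodCongr (1 : Equiv.Perm (Fin m)) (b : Equiv.Perm (Fin k))).trans e)
    have hσ : ∀ x j, σ (e (x, j)) = e ((1 : Equiv.Perm (Fin m)) x, (b : Equiv.Perm (Fin k)) j) := by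
      intro x j
      simp [σ]
    have hσG : σ ∈ G := (hG σ).2 ⟨b, b.2, fun _ => 1, fun _ => G₁.one_mem, hσ⟩
    refine ⟨⟨σ, hσG⟩, ?_⟩
    rw [hconj ⟨σ, hσG⟩ b (fun _ => 1) (fun _ => G₁.one_mem) hσ j g, hbj]
    refine ⟨g, Subgroup.subset_closure hg, ?_⟩
    have h1 : (⟨1, G₁.one_mem⟩ : G₁) = 1 := rfl
    rw [h1, one_mul, inv_one, mul_one]
  · rintro σ hσ _ ⟨t, ht, rfl⟩ y hy
    obtain ⟨j, hj, b, hb'⟩ := hout σ hσ y hy
    rw [hb']
    exact Subtype.ext (blk_comm e j₀ j hj.symm t b)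
  · rintro _ ⟨t, ht, rfl⟩ hx
    have h1 : ∀ z ∈ Subgroup.closure {z : G | ∃ g : G,
        g ∉ (Subgroup.normalizer (D : Set G) : Subgroup G) ∧ ∃ y ∈ D, z = g * y * g⁻¹},
        ∀ x, (z : Equiv.Perm (Fin n)) (e (x, j₀)) = e (x, j₀) := by
      intro z hz
      induction hz using Subgroup.closure_induction with
      | mem z hz =>
        obtain ⟨g, hg, y, hy, rfl⟩ := hz
        obtain ⟨j, hj, b, hb'⟩ := hout g hg y hy
        intro x
        rw [hb', hιv, blk_ap, if_neg hj.symm]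
      | one => intro x; rfl
      | mul a b _ _ ha hb' =>
        intro x
        show (a : Equiv.Perm (Fin n)) ((b : Equiv.Perm (Fin n)) (e (x, j₀))) = e (x, j₀)
        rw [hb', ha]
      | inv a _ ha =>
        intro x
        show (a : Equiv.Perm (Fin n))⁻¹ (e (x, j₀)) = e (x, j₀)
        rw [Equiv.Perm.inv_eq_iff_eq, ha]
    have h2 : t = 1 := by
      apply Subtype.ext
      apply Equiv.ext
      intro x
      have h3 := h1 _ hx x
      rw [hιv, blk_ap, if_pos rfl] at h3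
      exact congrArg Prod.fst (e.injective h3)
    rw [h2, map_one]
  · obtain ⟨r, hr⟩ := act_hom (e := e) (G₁ := G₁) j₀
      (Subgroup.normalizer (D : Set G) : Subgroup G) hSM
    have hsM : ∀ g : G₁, ι j₀ g ∈ (Subgroup.normalizer (D : Set G) : Subgroup G) := by
      intro g
      refine hMS _ ⟨g, fun x => ?_⟩
      rw [hιv, blk_ap, if_pos rfl]
    let s : G₁ →* (Subgroup.normalizer (D : Set G) : Subgroup G) := (ι j₀).codRestrict _ hsM
    have hsv : ∀ g, ((s g : (Subgroup.normalizer (D : Set G) : Subgroup G)) : G) = ι j₀ g := fun _ => rfl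
    have hrs : ∀ x, r (s x) = x := by
      intro g
      apply Subtype.ext
      apply Equiv.ext
      intro x
      have h1 := hr (s g) x
      rw [hsv, hιv, blk_ap, if_pos rfl] at h1
      exact (congrArg Prod.fst (e.injective h1)).symm
    have hc : ∀ x y, r y = 1 → s x * y = y * s x := by
      intro g y hy
      apply Subtype.ext
      show ι j₀ g * (y : G) = y * ι j₀ g
      have h1 := hsD y (r y) (hr y) g
      rw [hy, one_mul, inv_one, mul_one] at h1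
      exact (mul_inv_eq_iff_eq_mul.1 h1).symm
    have key := sc_dir r s hrs hc h
    have e1 : (Subgroup.closure L₁).map s =
        D.subgroupOf (Subgroup.normalizer (D : Set G) : Subgroup G) := by
      ext x
      rw [Subgroup.mem_subgroupOf]
      constructor
      · rintro ⟨g, hg, rfl⟩
        exact ⟨g, hg, rfl⟩
      · rintro ⟨g, hg, hgx⟩
        exact ⟨g, hg, Subtype.ext hgx⟩
    have e2 : s '' L₁ = {x : (Subgroup.normalizer (D : Set G) : Subgroup G) |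
        (x : G) ∈ L ∧ (x : G) ∈ D} := by
      ext x
      constructor
      · rintro ⟨g, hg, rfl⟩
        have : ι j₀ g ∈ L ∩ D := by
          rw [hLD]
          exact ⟨g, hg, rfl⟩
        exact this
      · rintro hx
        have : (x : G) ∈ L ∩ D := hx
        rw [hLD] at this
        obtain ⟨g, hg, hgx⟩ := this
        exact ⟨g, hg, Subtype.ext hgx⟩
    rw [← e1, ← e2]
    exact key


theorem wr_part (hm : 2 ≤ m) (hk : 0 < k) (e : Fin m × Fin k ≃ Fin n)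
    (G₁ : Subgroup (Equiv.Perm (Fin m))) (hG₁ : MulAction.IsPretransitive G₁ (Fin m))
    (H : Subgroup (Equiv.Perm (Fin k)))
    (G : Subgroup (Equiv.Perm (Fin n))) (hG : IsWreath e G₁ H G) (C₁ : Set G₁) (hC₁ : Part G₁ C₁) :
    Part G (wrC e G₁ C₁ G) := by
  have hb := blk_mem hG
  obtain ⟨ι, hι⟩ : ∃ ι : Fin k → (G₁ →* G), ι = iota e G₁ G hb := ⟨_, rfl⟩
  have hιv : ∀ j (g : G₁), ((ι j g : G) : Equiv.Perm (Fin n)) = blk e j g := fun _ _ => by rw [hι]; rfl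
  obtain ⟨-, hwr⟩ := wr_ind hm hk e G₁ hG₁ H G hG
  have hLι : ∀ σ : G, σ ∈ wrC e G₁ C₁ G ↔ ∃ j, ∃ g ∈ C₁, σ = ι j g := by
    intro σ
    constructor
    · rintro ⟨j, g, hg, hs⟩
      refine ⟨j, g, hg, Subtype.ext (Equiv.ext fun y => ?_)⟩
      obtain ⟨⟨x, i⟩, rfl⟩ := e.surjective y
      rw [hs, hιv, blk_ap]
    · rintro ⟨j, g, hg, rfl⟩
      refine ⟨j, g, hg, fun x i => ?_⟩
      rw [hιv, blk_ap]
  refine ⟨?_, ?_, ?_, ?_⟩
  · obtain ⟨g, hg⟩ := hC₁.nonempty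
    exact ⟨ι ⟨0, hk⟩ g, (hLι _).2 ⟨_, g, hg, rfl⟩⟩
  · intro σ hσ
    obtain ⟨j, g, hg, rfl⟩ := (hLι σ).1 hσ
    obtain ⟨hg1, hg2⟩ := hC₁.least hg
    obtain ⟨h1, h2, h3⟩ := (hwr (ι j g : G)).2 ⟨j, g, g.2, fun h' => hg1 (Subtype.ext h'), hg2, hιv j g⟩
    exact ⟨fun h' => h2 (congrArg Subtype.val h'), h3⟩
  · intro σ hσ τ
    obtain ⟨j, g, hg, rfl⟩ := (hLι σ).1 hσ
    obtain ⟨h, hh, g', hg', hs⟩ := (hG τ).1 τ.2
    refine (hLι _).2 ⟨h j, ⟨g' j, hg' j⟩ * g * ⟨g' j, hg' j⟩⁻¹, hC₁.conj g hg _, Subtype.ext ?_⟩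
    rw [hιv]
    have h1 := blk_cj e τ h g' hs j g
    rw [← hιv j g] at h1
    exact h1
  · intro σ hσ i hi
    obtain ⟨j, g, hg, rfl⟩ := (hLι σ).1 hσ
    have h1 : Function.Injective (ι j) := by
      intro a b hab
      by_cases ha : a = 1
      · by_cases hb' : b = 1
        · rw [ha, hb']
        · exact (Subtype.ext (blk_inj e j j b a (fun h' => hb' (Subtype.ext h')) (by
            rw [← hιv, ← hιv, hab])).2).symm
      · exact Subtype.ext (blk_inj e j j a b (fun h' => ha (Subtype.ext h')) (by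
          rw [← hιv, ← hιv, hab])).2
    rw [orderOf_injective _ h1] at hi
    exact (hLι _).2 ⟨j, g ^ i, hC₁.pow g hg i hi, (map_pow _ _ _).symm⟩

theorem wr_lst (hm : 2 ≤ m) (hk : 0 < k) (e : Fin m × Fin k ≃ Fin n)
    (G₁ : Subgroup (Equiv.Perm (Fin m))) (hG₁ : MulAction.IsPretransitive G₁ (Fin m))
    (H : Subgroup (Equiv.Perm (Fin k)))
    (G : Subgroup (Equiv.Perm (Fin n))) (hG : IsWreath e G₁ H G) :
    wrC e G₁ (Lst G₁) G = Lst G := by
  refine Set.Subset.antisymm (wr_part hm hk e G₁ hG₁ H G hG (Lst G₁) (part_lst hm G₁ hG₁)).least ?_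
  rintro σ ⟨h1, h2⟩
  obtain ⟨-, hwr⟩ := wr_ind hm hk e G₁ hG₁ H G hG
  obtain ⟨j, g, hg, hg1, hg2, hs⟩ := (hwr σ).1 ⟨σ.2, fun h' => h1 (Subtype.ext h'), h2⟩
  refine ⟨j, ⟨g, hg⟩, ⟨fun h' => hg1 (congrArg Subtype.val h'), hg2⟩, fun x i => ?_⟩
  rw [hs, blk_ap]

theorem low_wrc (hm : 2 ≤ m) (hk : 0 < k) (e : Fin m × Fin k ≃ Fin n)
    (G₁ : Subgroup (Equiv.Perm (Fin m))) (hG₁ : MulAction.IsPretransitive G₁ (Fin m))
    (H : Subgroup (Equiv.Perm (Fin k))) (hH : MulAction.IsPretransitive H (Fin k))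
    (G : Subgroup (Equiv.Perm (Fin n))) (hG : IsWreath e G₁ H G) (C₁ : Set G₁) (hC₁ : Part G₁ C₁)
    (h : (∃ j : ℕ, Subgroup.closure C₁ ≤ Subgroup.upperCentralSeries G₁ j) ∨
      ∃ p : ℕ, p.Prime ∧ (∀ h ∈ C₁, h ^ p = 1) ∧ SC p (Subgroup.closure C₁) C₁) :
    LowC G (wrC e G₁ C₁ G) := by
  obtain ⟨p, hp, hL, hS⟩ : ∃ p : ℕ, p.Prime ∧ (∀ h ∈ C₁, h ^ p = 1) ∧ SC p (Subgroup.closure C₁) C₁ := by
    rcases h with ⟨j, hj⟩ | h
    · obtain ⟨x, hx⟩ := hC₁.nonempty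
      have hp := part_prime hC₁ x hx
      have hL : ∀ y ∈ C₁, y ^ orderOf x = 1 := by
        intro y hy
        rw [trgzc hm G₁ hG₁ C₁ hC₁ j hj x y hx hy]
        exact pow_orderOf_eq_one y
      exact ⟨orderOf x, hp, hL, SC.base _ _ j hj (tz_pgroupc C₁ j hj hp hL)⟩
    · exact h
  have hn : 2 ≤ n := by
    have h1 : Fintype.card (Fin m × Fin k) = Fintype.card (Fin n) := Fintype.card_congr e
    simp only [Fintype.card_prod, Fintype.card_fin] at h1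
    rw [← h1]
    exact le_trans hm (Nat.le_mul_of_pos_right _ hk)
  refine low_mcc hn G (wr_trans e G₁ hG₁ H hH G hG) _ (wr_part hm hk e G₁ hG₁ H G hG C₁ hC₁)
    (H51.K3.MC.loc _ p hp ?_ (wr_lcc hm hk e G₁ H hH G hG C₁ hC₁ hS))
  rintro σ ⟨j, g, hg, hs⟩
  have h5 : (g : Equiv.Perm (Fin m)) ^ p = 1 := congrArg Subtype.val (hL g hg)
  have h6 : (σ : Equiv.Perm (Fin n)) = blk e j g := by
    refine Equiv.ext fun y => ?_
    obtain ⟨⟨x, i⟩, rfl⟩ := e.surjective y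
    rw [hs, blk_ap]
  apply Subtype.ext
  show (σ : Equiv.Perm (Fin n)) ^ p = 1
  rw [h6, ← map_pow, h5, map_one]

end H51.K3
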